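import Mathlib

/-! Andréief's identity. -/

open Matrix Finset MeasureTheory

namespace Pool.Agent.Szego62

theorem det_mul_det_eq {R : Type*} [CommRing R] {n : ℕ} (A B : Matrix (Fin n) (Fin n) R) :
    A.det * B.det = ∑ σ : Equiv.Perm (Fin n), ∑ τ : Equiv.Perm (Fin n),
      ((Equiv.Perm.sign σ : ℤ) : R) * ((Equiv.Perm.sign τ : ℤ) : R) *
        ∏ j, (A (σ j) j * B (τ j) j) := by
  rw [det_apply', det_apply', sum_mul_sum]
  refine sum_congr rfl fun σ _ => sum_congr rfl fun τ _ => ?_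
  rw [prod_mul_distrib]
  ring

theorem sum_perm_perm {R : Type*} [CommRing R] {n : ℕ} (M : Matrix (Fin n) (Fin n) R) :
    ∑ σ : Equiv.Perm (Fin n), ∑ τ : Equiv.Perm (Fin n),
      ((Equiv.Perm.sign σ : ℤ) : R) * ((Equiv.Perm.sign τ : ℤ) : R) *
        ∏ j, M (σ j) (τ j) = (n.factorial : R) * M.det := by
  have h : ∀ σ : Equiv.Perm (Fin n), ∑ τ : Equiv.Perm (Fin n),
      ((Equiv.Perm.sign σ : ℤ) : R) * ((Equiv.Perm.sign τ : ℤ) : R) *
        ∏ j, M (σ j) (τ j) = M.det := by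
    intro σ
    rw [← det_transpose, det_apply']
    rw [← Equiv.sum_comp (Equiv.mulRight σ)]
    refine sum_congr rfl fun ρ _ => ?_
    have e1 : ∏ j, M (σ j) ((ρ * σ) j) = ∏ k, M k (ρ k) := by
      rw [← Equiv.prod_comp σ (fun k => M k (ρ k))]
      rfl
    have e2 : ((Equiv.Perm.sign σ : ℤ) : R) * ((Equiv.Perm.sign σ : ℤ) : R) = 1 := by
      rcases Int.units_eq_one_or (Equiv.Perm.sign σ) with h | h <;> simp [h]
    simp only [Equiv.coe_mulRight, e1, Equiv.Perm.sign_mul, Units.val_mul, Int.cast_mul,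
      transpose_apply]
    linear_combination ((Equiv.Perm.sign ρ : ℤ) : R) * (∏ k, M k (ρ k)) * e2
  rw [sum_congr rfl fun σ _ => h σ]
  simp [Fintype.card_perm]

/-- **Andréief's identity** -/
theorem andreief {α : Type*} [MeasurableSpace α] (μ : Measure α) [SigmaFinite μ] {n : ℕ}
    (φ ψ : Fin n → α → ℂ) (h : ∀ i j, Integrable (fun x => φ i x * ψ j x) μ) :
    ∫ x : Fin n → α, (Matrix.of fun i j => φ i (x j)).det *
        (Matrix.of fun i j => ψ i (x j)).det ∂(Measure.pi fun _ => μ) =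
      (n.factorial : ℂ) * (Matrix.of fun i j => ∫ x, φ i x * ψ j x ∂μ).det := by
  have h1 : (fun x : Fin n → α => (Matrix.of fun i j => φ i (x j)).det *
        (Matrix.of fun i j => ψ i (x j)).det) = fun x =>
      ∑ σ : Equiv.Perm (Fin n), ∑ τ : Equiv.Perm (Fin n),
      ((Equiv.Perm.sign σ : ℤ) : ℂ) * ((Equiv.Perm.sign τ : ℤ) : ℂ) *
        ∏ j, (φ (σ j) (x j) * ψ (τ j) (x j)) := by
    funext x
    rw [det_mul_det_eq]
    rfl
  rw [h1, ← sum_perm_perm]
  have hint : ∀ σ τ : Equiv.Perm (Fin n), Integrable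
      (fun x : Fin n → α => ((Equiv.Perm.sign σ : ℤ) : ℂ) * ((Equiv.Perm.sign τ : ℤ) : ℂ) *
        ∏ j, (φ (σ j) (x j) * ψ (τ j) (x j))) (Measure.pi fun _ => μ) := by
    intro σ τ
    apply Integrable.const_mul
    exact Integrable.fintype_prod (f := fun j y => φ (σ j) y * ψ (τ j) y)
      (fun j => h (σ j) (τ j))
  rw [integral_finset_sum _ fun σ _ => integrable_finset_sum _ fun τ _ => hint σ τ]
  refine sum_congr rfl fun σ _ => ?_
  rw [integral_finset_sum _ fun τ _ => hint σ τ]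
  refine sum_congr rfl fun τ _ => ?_
  rw [integral_const_mul]
  congr 1
  rw [integral_fintype_prod_eq_prod (f := fun j y => φ (σ j) y * ψ (τ j) y)]
  rfl

end Pool.Agent.Szego62
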