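import Pool.Agent.Szego62.Limit
import Pool.Agent.Szego62.Andreief

/-! Heine's identity and the integral form of the sharp Szegő bound. -/

open Matrix Finset MeasureTheory
open scoped ComplexConjugate Real

namespace Pool.Agent.Szego62

/-- normalised Lebesgue measure on `(0, 2π]` -/
noncomputable def mu : Measure ℝ :=
  (ENNReal.ofReal (2 * π))⁻¹ • volume.restrict (Set.Ioc 0 (2 * π))

/-- squared Vandermonde modulus -/
noncomputable def V (n : ℕ) (θ : Fin n → ℝ) : ℝ :=
  ∏ i : Fin n, ∏ j ∈ Ioi i, ‖Complex.exp (θ i * Complex.I) - Complex.exp (θ j * Complex.I)‖ ^ 2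

/-- real trigonometric polynomial without constant term -/
noncomputable def F (K : ℕ) (c : ℕ → ℂ) (θ : ℝ) : ℝ :=
  ∑ k ∈ range K, 2 * (c k * Complex.exp ((k + 1 : ℂ) * θ * Complex.I)).re

instance : IsProbabilityMeasure mu := by
  constructor
  have h : (0 : ℝ) < 2 * π := by positivity
  simp only [mu, Measure.smul_apply, Measure.restrict_apply MeasurableSet.univ, Set.univ_inter,
    Real.volume_Ioc, sub_zero, smul_eq_mul]
  exact ENNReal.inv_mul_cancel (by simpa using h) ENNReal.ofReal_ne_top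

theorem integral_mu (f : ℝ → ℂ) : ∫ x, f x ∂mu = (2 * π)⁻¹ • ∫ x in (0 : ℝ)..2 * π, f x := by
  have h : (0 : ℝ) ≤ 2 * π := by positivity
  rw [mu, integral_smul_measure, intervalIntegral.integral_of_le h, ENNReal.toReal_inv,
    ENNReal.toReal_ofReal h]

theorem ip_eq (f g : ℂ → ℂ) : ip f g =
    ∫ x : ℝ, f (Complex.exp (x * Complex.I)) * conj (g (Complex.exp (x * Complex.I))) ∂mu := by
  rw [integral_mu]
  simp [ip, Real.circleAverage, circleMap]

theorem det_vand {n : ℕ} (f : ℂ → ℂ) (x : Fin n → ℂ) :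
    (Matrix.of fun (i j : Fin n) => x j ^ (i : ℕ) * f (x j)).det =
      (∏ j, f (x j)) * ∏ i : Fin n, ∏ j ∈ Ioi i, (x j - x i) := by
  have h := det_mul_row (fun j => f (x j)) ((vandermonde x)ᵀ)
  rw [det_transpose, det_vandermonde] at h
  rw [← h]
  congr 1
  ext i j
  simp [vandermonde_apply, mul_comm]

theorem integrand_eq (K n : ℕ) (c : ℕ → ℂ) (θ : Fin n → ℝ) :
    ((V n θ * Real.exp (∑ i, F K c (θ i)) : ℝ) : ℂ) =
    (Matrix.of fun (i j : Fin n) => (Complex.exp (θ j * Complex.I)) ^ (i : ℕ) *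
      ev (fun k : Fin K => c k) (Complex.exp (θ j * Complex.I))).det *
    (Matrix.of fun (i j : Fin n) => conj ((Complex.exp (θ j * Complex.I)) ^ (i : ℕ) *
      ev (fun k : Fin K => c k) (Complex.exp (θ j * Complex.I)))).det := by
  set x : Fin n → ℂ := fun j => Complex.exp (θ j * Complex.I) with hx
  set f : ℂ → ℂ := ev (fun k : Fin K => c k) with hf
  have h1 := det_vand f x
  have h2 : (Matrix.of fun (i j : Fin n) => conj ((x j) ^ (i : ℕ) * f (x j))).det =
      conj ((∏ j, f (x j)) * ∏ i : Fin n, ∏ j ∈ Ioi i, (x j - x i)) := by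
    rw [← h1, RingHom.map_det]
    rfl
  have h3 : ∀ j, ‖f (x j)‖ ^ 2 = Real.exp (F K c (θ j)) := by
    intro j
    rw [hf, ev, Complex.norm_exp, ← Real.exp_nat_mul, F, ← mul_sum, Complex.re_sum,
      ← Fin.sum_univ_eq_sum_range (fun k => (c k * Complex.exp ((k + 1 : ℂ) * θ j *
        Complex.I)).re)]
    push_cast
    congr 3
    funext k
    congr 2
    rw [hx, ← Complex.exp_nat_mul]
    congr 1
    push_cast
    ring
  rw [h2]
  change _ = (Matrix.of fun (i j : Fin n) => x j ^ (i : ℕ) * f (x j)).det * _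
  rw [h1, Complex.mul_conj, Complex.normSq_eq_norm_sq]
  congr 1
  rw [norm_mul, mul_pow, norm_prod, ← prod_pow, Real.exp_sum, prod_congr rfl fun j _ => h3 j,
    mul_comm]
  congr 1
  rw [V, norm_prod, ← prod_pow]
  refine prod_congr rfl fun i _ => ?_
  rw [norm_prod, ← prod_pow]
  refine prod_congr rfl fun j _ => ?_
  rw [norm_sub_rev]

/-- **Heine's identity** -/
theorem heine (K n : ℕ) (c : ℕ → ℂ) :
    ((∫ θ : Fin n → ℝ, V n θ * Real.exp (∑ i, F K c (θ i)) ∂(Measure.pi fun _ => mu) : ℝ) : ℂ) =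
      (n.factorial : ℂ) * (toep n (ev (fun k : Fin K => c k))).det := by
  rw [← integral_complex_ofReal]
  have h1 := andreief mu (n := n)
    (fun i (θ : ℝ) => (Complex.exp (θ * Complex.I)) ^ (i : ℕ) *
      ev (fun k : Fin K => c k) (Complex.exp (θ * Complex.I)))
    (fun i (θ : ℝ) => conj ((Complex.exp (θ * Complex.I)) ^ (i : ℕ) *
      ev (fun k : Fin K => c k) (Complex.exp (θ * Complex.I)))) ?_
  · rw [integral_congr_ae (ae_of_all _ fun θ => integrand_eq K n c θ), h1]
    congr 2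
    ext i j
    simp only [toep, gram, Matrix.of_apply, ip_eq]
  · intro i j
    have hc : Continuous (fun x : ℝ => (Complex.exp (x * Complex.I)) ^ (i : ℕ) *
      ev (fun k : Fin K => c k) (Complex.exp (x * Complex.I)) *
      conj ((Complex.exp (x * Complex.I)) ^ (j : ℕ) *
      ev (fun k : Fin K => c k) (Complex.exp (x * Complex.I)))) := by
      unfold ev
      fun_prop
    have hi : IntegrableOn (fun x : ℝ => (Complex.exp (x * Complex.I)) ^ (i : ℕ) *
      ev (fun k : Fin K => c k) (Complex.exp (x * Complex.I)) *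
      conj ((Complex.exp (x * Complex.I)) ^ (j : ℕ) *
      ev (fun k : Fin K => c k) (Complex.exp (x * Complex.I)))) (Set.Ioc 0 (2 * π)) :=
      (hc.continuousOn.integrableOn_Icc).mono_set Set.Ioc_subset_Icc_self
    exact hi.smul_measure (by simp [Real.pi_pos])

/-- **Sharp Szegő upper bound**, integral form. -/
theorem szego_integral (n K : ℕ) (c : ℕ → ℂ) :
    ∫ θ : Fin n → ℝ, V n θ * Real.exp (∑ i, F K c (θ i)) ∂(Measure.pi fun _ => mu) ≤
      (n.factorial : ℝ) * Real.exp (∑ k ∈ range K, ((k : ℝ) + 1) * ‖c k‖ ^ 2) := by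
  have h1 := congrArg Complex.re (heine K n c)
  rw [Complex.ofReal_re] at h1
  rw [h1]
  have h2 : ((n.factorial : ℂ) * (toep n (ev (fun k : Fin K => c k))).det).re =
      (n.factorial : ℝ) * ((toep n (ev (fun k : Fin K => c k))).det).re := by
    rw [← Complex.ofReal_natCast, Complex.re_ofReal_mul]
  rw [h2]
  apply mul_le_mul_of_nonneg_left _ (by positivity)
  have h3 := szego (fun k : Fin K => c k) n
  rwa [Fin.sum_univ_eq_sum_range (fun k => ((k : ℝ) + 1) * ‖c k‖ ^ 2) K] at h3

end Pool.Agent.Szego62
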