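import Mathlib

/-!
General Gaussian mixing: from the exponential moments of a finite family of statistics with a
quadratic bound (any symmetric matrix `A` with `1 - A` positive definite) to the exponential of
half the sum of their squares.
-/

open MeasureTheory ProbabilityTheory Finset Matrix
open scoped ENNReal NNReal

namespace Pool.Agent.Szego62

/-- `E exp (x t) = exp (t^2/2)` -/
theorem gauss_lin (t : ℝ) :
    ∫⁻ x, ENNReal.ofReal (Real.exp (x * t)) ∂(gaussianReal 0 1) =
      ENNReal.ofReal (Real.exp (t ^ 2 / 2)) := by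
  have h1 := integrable_exp_mul_gaussianReal (μ := 0) (v := 1) t
  have h2 := mgf_gaussianReal (p := gaussianReal 0 1) (X := fun x => x) (μ := 0) (v := 1)
    (by simp) t
  have h3 : ∫ x, Real.exp (t * x) ∂(gaussianReal 0 1) = Real.exp (t ^ 2 / 2) := by
    unfold mgf at h2
    rw [h2]
    congr 1
    simp
  rw [← h3, ofReal_integral_eq_lintegral_ofReal h1
    (Filter.Eventually.of_forall fun x => (Real.exp_pos _).le)]
  refine lintegral_congr fun x => ?_
  rw [mul_comm]

/-- `E exp (l x + κ x^2/2)` -/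
theorem gauss_quad {κ : ℝ} (hκ : κ < 1) (l : ℝ) :
    ∫⁻ x, ENNReal.ofReal (Real.exp (l * x + κ * x ^ 2 / 2)) ∂(gaussianReal 0 1) =
      ENNReal.ofReal ((Real.sqrt (1 - κ))⁻¹ * Real.exp (l ^ 2 / (1 - κ) / 2)) := by
  obtain ⟨q, hq⟩ : ∃ q, q = 1 - κ := ⟨_, rfl⟩
  have hq0 : 0 < q := by rw [hq]; linarith
  rw [← hq]
  obtain ⟨v, hv⟩ : ∃ v : ℝ≥0, v = 1 / q.toNNReal := ⟨_, rfl⟩
  have hvr : (v : ℝ) = 1 / q := by
    rw [hv, NNReal.coe_div, Real.coe_toNNReal _ hq0.le, NNReal.coe_one]
  have hvne : v ≠ 0 := by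
    intro h
    rw [h] at hvr
    have : (0 : ℝ) < 1 / q := div_pos one_pos hq0
    rw [← hvr] at this
    simp at this
  rw [gaussianReal_of_var_ne_zero _ one_ne_zero,
    lintegral_withDensity_eq_lintegral_mul _ (measurable_gaussianPDF _ _) (by fun_prop)]
  have key : ∀ x : ℝ, (gaussianPDF 0 1 * fun x =>
      ENNReal.ofReal (Real.exp (l * x + κ * x ^ 2 / 2))) x =
        ENNReal.ofReal ((Real.sqrt q)⁻¹ * Real.exp (l ^ 2 / q / 2)) *
          ENNReal.ofReal (gaussianPDFReal (l * (1 / q)) v x) := by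
    intro x
    rw [Pi.mul_apply]
    unfold gaussianPDF
    rw [← ENNReal.ofReal_mul (gaussianPDFReal_nonneg _ _ _), ← ENNReal.ofReal_mul (by positivity)]
    congr 1
    unfold gaussianPDFReal
    rw [hvr, NNReal.coe_one]
    have e1 : Real.sqrt (2 * Real.pi * (1 / q)) =
        Real.sqrt (2 * Real.pi * 1) * (Real.sqrt q)⁻¹ := by
      rw [← Real.sqrt_inv, ← Real.sqrt_mul (by positivity)]
      congr 1
      ring
    rw [e1]
    have e3 : -(x - 0) ^ 2 / (2 * (1 : ℝ)) + (l * x + κ * x ^ 2 / 2) =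
        l ^ 2 / q / 2 + -(x - l * (1 / q)) ^ 2 / (2 * (1 / q)) := by
      have e4 : κ = 1 - q := by rw [hq]; ring
      rw [e4]
      field_simp
      ring
    have e5 : Real.sqrt q ≠ 0 := (Real.sqrt_pos.2 hq0).ne'
    have e6 : Real.sqrt (2 * Real.pi * 1) ≠ 0 := (Real.sqrt_pos.2 (by positivity)).ne'
    calc (Real.sqrt (2 * Real.pi * 1))⁻¹ * Real.exp (-(x - 0) ^ 2 / (2 * 1)) *
          Real.exp (l * x + κ * x ^ 2 / 2) =
        (Real.sqrt (2 * Real.pi * 1))⁻¹ *
          Real.exp (-(x - 0) ^ 2 / (2 * 1) + (l * x + κ * x ^ 2 / 2)) := by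
          rw [mul_assoc, ← Real.exp_add]
      _ = (Real.sqrt (2 * Real.pi * 1))⁻¹ * (Real.exp (l ^ 2 / q / 2) *
          Real.exp (-(x - l * (1 / q)) ^ 2 / (2 * (1 / q)))) := by rw [e3, Real.exp_add]
      _ = _ := by
        field_simp
  rw [lintegral_congr key, lintegral_const_mul _ (by fun_prop),
    lintegral_gaussianPDFReal_eq_one _ hvne, mul_one]

variable {Ω : Type*} [MeasurableSpace Ω] {ν : Measure Ω} [SFinite ν]

/-- one statistic -/
theorem mix_one {W : Ω → ℝ≥0∞} (hW : Measurable W) {P : Ω → ℝ} (hP : Measurable P)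
    {B : ℝ≥0∞} {κ l : ℝ} (hκ : κ < 1)
    (h : ∀ s : ℝ, ∫⁻ x, W x * ENNReal.ofReal (Real.exp (s * P x)) ∂ν ≤
      B * ENNReal.ofReal (Real.exp (l * s + κ * s ^ 2 / 2))) :
    ∫⁻ x, W x * ENNReal.ofReal (Real.exp ((P x) ^ 2 / 2)) ∂ν ≤
      B * ENNReal.ofReal ((Real.sqrt (1 - κ))⁻¹ * Real.exp (l ^ 2 / (1 - κ) / 2)) := by
  have h1 : ∀ x, W x * ENNReal.ofReal (Real.exp ((P x) ^ 2 / 2)) =
      ∫⁻ y, W x * ENNReal.ofReal (Real.exp (y * P x)) ∂(gaussianReal 0 1) := by
    intro x
    rw [lintegral_const_mul _ (by fun_prop), gauss_lin]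
  rw [lintegral_congr h1, lintegral_lintegral_swap (by fun_prop), ← gauss_quad hκ l,
    ← lintegral_const_mul _ (by fun_prop)]
  exact lintegral_mono fun y => h _

/-- diagonal family -/
theorem mix_diag {ι : Type*} [Fintype ι] [DecidableEq ι] {W : Ω → ℝ≥0∞} (hW : Measurable W)
    {P : ι → Ω → ℝ} (hP : ∀ i, Measurable (P i)) {B : ℝ≥0∞} {κ l : ι → ℝ} (hκ : ∀ i, κ i < 1)
    (h : ∀ a : ι → ℝ, ∫⁻ x, W x * ENNReal.ofReal (Real.exp (∑ i, a i * P i x)) ∂ν ≤
      B * ENNReal.ofReal (Real.exp (∑ i, (l i * a i + κ i * a i ^ 2 / 2)))) :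
    ∫⁻ x, W x * ENNReal.ofReal (Real.exp (∑ i, (P i x) ^ 2 / 2)) ∂ν ≤
      B * ENNReal.ofReal (∏ i, ((Real.sqrt (1 - κ i))⁻¹ * Real.exp (l i ^ 2 / (1 - κ i) / 2))) := by
  have main : ∀ s : Finset ι, ∀ a : ι → ℝ,
      ∫⁻ x, W x * ENNReal.ofReal (Real.exp (∑ i ∈ s, (P i x) ^ 2 / 2 +
        ∑ i ∈ univ \ s, a i * P i x)) ∂ν ≤
      B * ENNReal.ofReal ((∏ i ∈ s, ((Real.sqrt (1 - κ i))⁻¹ *
        Real.exp (l i ^ 2 / (1 - κ i) / 2))) *
        Real.exp (∑ i ∈ univ \ s, (l i * a i + κ i * a i ^ 2 / 2))) := by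
    intro s
    induction s using Finset.induction_on with
    | empty =>
      intro a
      simpa using h a
    | insert j s hj ih =>
      intro a
      have hjs : j ∈ univ \ s := mem_sdiff.2 ⟨mem_univ _, hj⟩
      have ht2 : univ \ s = insert j (univ \ insert j s) := by
        ext i
        simp only [mem_sdiff, mem_insert, mem_univ, true_and]
        by_cases hij : i = j
        · simp [hij, hj]
        · simp [hij]
      have hjn : j ∉ univ \ insert j s := by simp
      have hPm : Measurable fun x => ∑ i ∈ s, (P i x) ^ 2 / 2 +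
          ∑ i ∈ univ \ insert j s, a i * P i x := by fun_prop
      have step := mix_one (ν := ν) (W := fun x => W x * ENNReal.ofReal (Real.exp
        (∑ i ∈ s, (P i x) ^ 2 / 2 + ∑ i ∈ univ \ insert j s, a i * P i x)))
        (by fun_prop) (hP j)
        (B := B * ENNReal.ofReal ((∏ i ∈ s, ((Real.sqrt (1 - κ i))⁻¹ *
        Real.exp (l i ^ 2 / (1 - κ i) / 2))) *
        Real.exp (∑ i ∈ univ \ insert j s, (l i * a i + κ i * a i ^ 2 / 2))))
        (l := l j) (hκ j) ?_
      · refine le_trans (le_of_eq ?_) (step.trans (le_of_eq ?_))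
        · refine lintegral_congr fun x => ?_
          rw [mul_assoc, ← ENNReal.ofReal_mul (Real.exp_pos _).le, ← Real.exp_add,
            sum_insert hj]
          congr 3
          ring
        · rw [mul_assoc, ← ENNReal.ofReal_mul
            (mul_nonneg (prod_nonneg fun i _ => by positivity) (Real.exp_pos _).le),
            prod_insert hj]
          congr 2
          ring
      · intro t
        have h3 := ih (Function.update a j t)
        rw [ht2, sum_insert hjn, Function.update_self] at h3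
        have e1 : ∑ i ∈ univ \ insert j s, (l i * Function.update a j t i +
            κ i * Function.update a j t i ^ 2 / 2) =
            ∑ i ∈ univ \ insert j s, (l i * a i + κ i * a i ^ 2 / 2) := by
          refine sum_congr rfl fun i hi => ?_
          have : i ≠ j := by rintro rfl; exact hjn hi
          rw [Function.update_of_ne this]
        rw [e1] at h3
        refine le_trans (le_of_eq ?_) (h3.trans (le_of_eq ?_))
        · refine lintegral_congr fun x => ?_
          rw [sum_insert hjn, Function.update_self]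
          have e2 : ∑ i ∈ univ \ insert j s, Function.update a j t i * P i x =
              ∑ i ∈ univ \ insert j s, a i * P i x := by
            refine sum_congr rfl fun i hi => ?_
            have : i ≠ j := by rintro rfl; exact hjn hi
            rw [Function.update_of_ne this]
          rw [e2, mul_assoc, ← ENNReal.ofReal_mul (Real.exp_pos _).le, ← Real.exp_add]
          congr 3
          ring
        · rw [mul_assoc, ← ENNReal.ofReal_mul
            (mul_nonneg (prod_nonneg fun i _ => by positivity) (Real.exp_pos _).le),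
            Real.exp_add]
          congr 2
          ring
  have h1 := main univ 0
  simpa using h1

/-- **General quadratic mixing**: the exponential moments of all linear combinations of the
statistics `P a` are bounded by a Gaussian one with matrix `A`, `A < 1`. -/
theorem mixQ {ι : Type*} [Fintype ι] [DecidableEq ι] {A : Matrix ι ι ℝ} (hA : A.IsHermitian)
    (hA1 : (1 - A).PosDef) (l : ι → ℝ) {W : Ω → ℝ≥0∞} (hW : Measurable W)
    {P : ι → Ω → ℝ} (hP : ∀ i, Measurable (P i)) {B : ℝ≥0∞}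
    (h : ∀ s : ι → ℝ, ∫⁻ x, W x * ENNReal.ofReal (Real.exp (∑ i, s i * P i x)) ∂ν ≤
      B * ENNReal.ofReal (Real.exp (l ⬝ᵥ s + s ⬝ᵥ (A *ᵥ s) / 2))) :
    ∫⁻ x, W x * ENNReal.ofReal (Real.exp (∑ i, (P i x) ^ 2 / 2)) ∂ν ≤
      B * ENNReal.ofReal ((Real.sqrt (1 - A).det)⁻¹ *
        Real.exp (l ⬝ᵥ ((1 - A)⁻¹ *ᵥ l) / 2)) := by
  -- diagonalise
  set U : Matrix ι ι ℝ := (hA.eigenvectorUnitary : Matrix ι ι ℝ) with hU
  set κ : ι → ℝ := hA.eigenvalues with hκ
  have hUU : Uᵀ * U = 1 := by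
    have := (Matrix.mem_unitaryGroup_iff').1 hA.eigenvectorUnitary.2
    simpa [star_eq_conjTranspose] using this
  have hUU' : U * Uᵀ = 1 := by
    have := (Matrix.mem_unitaryGroup_iff).1 hA.eigenvectorUnitary.2
    simpa [star_eq_conjTranspose] using this
  have hAU : A = U * diagonal κ * Uᵀ := by
    have h1 := hA.spectral_theorem
    rw [Unitary.conjStarAlgAut_apply] at h1
    simpa [star_eq_conjTranspose, Function.comp_def] using h1
  have hq : ∀ s : ι → ℝ, (U *ᵥ s) ⬝ᵥ (A *ᵥ (U *ᵥ s)) = ∑ i, κ i * s i ^ 2 := by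
    intro s
    have h1 : A *ᵥ (U *ᵥ s) = U *ᵥ (diagonal κ *ᵥ s) := by
      rw [hAU, mulVec_mulVec, mul_assoc, mul_assoc, hUU, mul_one, mulVec_mulVec]
    have h2 : (U *ᵥ s) ⬝ᵥ (U *ᵥ (diagonal κ *ᵥ s)) = s ⬝ᵥ (diagonal κ *ᵥ s) := by
      rw [dotProduct_mulVec, vecMul_mulVec, hUU, vecMul_one]
    rw [h1, h2]
    simp only [dotProduct, mulVec_diagonal]
    exact sum_congr rfl fun i _ => by ring
  have hκ1 : ∀ i, κ i < 1 := by
    intro i
    have h1 := hA1.re_dotProduct_pos (x := U *ᵥ Pi.single i 1) (by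
      intro h0
      have h2 : Uᵀ *ᵥ (U *ᵥ Pi.single i (1 : ℝ)) = 0 := by rw [h0, mulVec_zero]
      rw [mulVec_mulVec, hUU, one_mulVec] at h2
      have h3 := congrFun h2 i
      simp at h3)
    rw [star_trivial, RCLike.re_to_real, sub_mulVec, one_mulVec, dotProduct_sub, hq] at h1
    have h2 : (U *ᵥ Pi.single i (1 : ℝ)) ⬝ᵥ (U *ᵥ Pi.single i (1 : ℝ)) = 1 := by
      rw [dotProduct_mulVec, vecMul_mulVec, hUU, vecMul_one]
      simp
    rw [h2] at h1
    have h3 : ∑ j, κ j * (Pi.single i (1 : ℝ) : ι → ℝ) j ^ 2 = κ i := by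
      rw [sum_eq_single i]
      · simp
      · intro j _ hj
        simp [Pi.single_eq_of_ne hj]
      · simp
    rw [h3] at h1
    linarith
  have h1A : 1 - A = U * diagonal (fun i => 1 - κ i) * Uᵀ := by
    have : (diagonal (fun i => 1 - κ i) : Matrix ι ι ℝ) = 1 - diagonal κ := by
      rw [← diagonal_one, diagonal_sub]
    rw [this, mul_sub, sub_mul, mul_one, hUU', ← hAU]
  have hdet : (1 - A).det = ∏ i, (1 - κ i) := by
    rw [h1A, det_mul, det_mul, det_diagonal, mul_comm, ← mul_assoc, ← det_mul, hUU, det_one,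
      one_mul]
  have hinv : (1 - A)⁻¹ = U * diagonal (fun i => (1 - κ i)⁻¹) * Uᵀ := by
    apply inv_eq_right_inv
    rw [h1A]
    have h2 : diagonal (fun i => 1 - κ i) * diagonal (fun i => (1 - κ i)⁻¹) =
        (1 : Matrix ι ι ℝ) := by
      rw [diagonal_mul_diagonal, ← diagonal_one]
      congr 1
      funext i
      exact mul_inv_cancel₀ (by linarith [hκ1 i])
    calc U * diagonal (fun i => 1 - κ i) * Uᵀ * (U * diagonal (fun i => (1 - κ i)⁻¹) * Uᵀ)
        = U * (diagonal (fun i => 1 - κ i) * (Uᵀ * U) * diagonal (fun i => (1 - κ i)⁻¹)) * Uᵀ := by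
          simp only [mul_assoc]
      _ = 1 := by rw [hUU, mul_one, h2, mul_one, hUU']
  have hl : l ⬝ᵥ ((1 - A)⁻¹ *ᵥ l) = ∑ i, (Uᵀ *ᵥ l) i ^ 2 / (1 - κ i) := by
    rw [hinv, ← mulVec_mulVec, ← mulVec_mulVec, dotProduct_mulVec, ← mulVec_transpose]
    simp only [dotProduct, mulVec_diagonal]
    exact sum_congr rfl fun i _ => by rw [div_eq_mul_inv]; ring
  have key := mix_diag (ν := ν) hW (P := fun b x => ∑ a, U a b * P a x)
    (fun b => by fun_prop) (B := B) (κ := κ) (l := Uᵀ *ᵥ l) hκ1 ?_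
  · refine le_trans (le_of_eq ?_) (key.trans (le_of_eq ?_))
    · refine lintegral_congr fun x => ?_
      congr 3
      have h2 : ∀ b, ∑ a, U a b * P a x = (Uᵀ *ᵥ (fun a => P a x)) b := by
        intro b
        simp [mulVec, dotProduct, transpose_apply]
      have h3 : (Uᵀ *ᵥ (fun a => P a x)) ⬝ᵥ (Uᵀ *ᵥ (fun a => P a x)) =
          (fun a => P a x) ⬝ᵥ (fun a => P a x) := by
        rw [dotProduct_mulVec, vecMul_mulVec, transpose_transpose, hUU', vecMul_one]
      simp only [h2]
      rw [← sum_div, ← sum_div]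
      congr 1
      simpa [dotProduct, pow_two] using h3.symm
    · congr 2
      rw [prod_mul_distrib, ← Real.exp_sum, hdet, hl]
      congr 1
      · rw [Real.sqrt_prod _ (fun i _ => by linarith [hκ1 i]), prod_inv_distrib]
      · congr 1
        rw [← sum_div]
  · intro s
    have h2 := h (U *ᵥ s)
    rw [hq] at h2
    refine le_trans (le_of_eq ?_) (h2.trans (le_of_eq ?_))
    · refine lintegral_congr fun x => ?_
      congr 3
      simp only [mulVec, dotProduct, mul_sum, sum_mul]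
      rw [sum_comm]
      exact sum_congr rfl fun i _ => sum_congr rfl fun j _ => by ring
    · congr 3
      rw [sum_add_distrib, ← sum_div]
      congr 1
      rw [dotProduct_mulVec, ← mulVec_transpose]
      rfl

end Pool.Agent.Szego62
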