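import Mathlib
import Pool.Agent.Szego62.MixQ

/-!
Gaussian mixing with an arbitrary measurable factor in the bound: from the exponential moments of
the linear combinations of a finite family of statistics to the exponential of half the sum of
their squares, the bound being integrated against the (tilted) Gaussian law of the coefficients.
-/

open MeasureTheory ProbabilityTheory Finset
open scoped ENNReal NNReal

namespace Pool.Agent.Szego62

/-- Tonelli for products of functions of the coordinates -/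
theorem tonelli_pi {ι : Type*} [Fintype ι] (μ : ι → Measure ℝ) [∀ i, IsProbabilityMeasure (μ i)]
    (f : ι → ℝ → ℝ≥0∞) (hf : ∀ i, Measurable (f i)) :
    ∫⁻ x : ι → ℝ, ∏ i, f i (x i) ∂(Measure.pi μ) = ∏ i, ∫⁻ x, f i x ∂(μ i) := by
  classical
  have hi : iIndepFun (fun (i : ι) (x : ι → ℝ) => f i (x i)) (Measure.pi μ) :=
    iIndepFun_pi fun i => (hf i).aemeasurable
  rw [lintegral_prod_eq_prod_lintegral_of_indepFun Finset.univ
    (fun (i : ι) (x : ι → ℝ) => f i (x i)) hi (fun i => (hf i).comp (measurable_pi_apply i))]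
  refine Finset.prod_congr rfl fun i _ => ?_
  exact (measurePreserving_eval μ i).lintegral_comp (hf i)

/-- `E exp (∑ a_i t_i) = exp (∑ t_i^2/2)` for a standard Gaussian vector `a` -/
theorem lin_pi {ι : Type*} [Fintype ι] (t : ι → ℝ) :
    ∫⁻ a : ι → ℝ, ENNReal.ofReal (Real.exp (∑ i, a i * t i))
      ∂(Measure.pi fun _ : ι => gaussianReal 0 1) =
      ENNReal.ofReal (Real.exp (∑ i, (t i) ^ 2 / 2)) := by
  have h1 : ∀ a : ι → ℝ, ENNReal.ofReal (Real.exp (∑ i, a i * t i)) =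
      ∏ i, ENNReal.ofReal (Real.exp (a i * t i)) := by
    intro a
    rw [Real.exp_sum, ENNReal.ofReal_prod_of_nonneg (fun i _ => (Real.exp_pos _).le)]
  simp_rw [h1]
  rw [tonelli_pi (fun _ : ι => gaussianReal 0 1)
    (fun i x => ENNReal.ofReal (Real.exp (x * t i))) (fun i => by fun_prop)]
  simp_rw [gauss_lin]
  rw [← ENNReal.ofReal_prod_of_nonneg (fun i _ => (Real.exp_pos _).le), ← Real.exp_sum]

/-- the tilted one dimensional law -/
theorem tilt_one {κ : ℝ} (hκ : κ < 1) (l : ℝ) :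
    (gaussianReal 0 1).withDensity
        (fun x => ENNReal.ofReal (Real.exp (l * x + κ * x ^ 2 / 2))) =
      ENNReal.ofReal ((Real.sqrt (1 - κ))⁻¹ * Real.exp (l ^ 2 / (1 - κ) / 2)) •
        gaussianReal (l / (1 - κ)) (1 / (1 - κ)).toNNReal := by
  obtain ⟨q, hq⟩ : ∃ q, q = 1 - κ := ⟨_, rfl⟩
  have hq0 : 0 < q := by rw [hq]; linarith
  rw [← hq]
  obtain ⟨v, hv⟩ : ∃ v : ℝ≥0, v = (1 / q).toNNReal := ⟨_, rfl⟩
  have hvr : (v : ℝ) = 1 / q := by
    rw [hv, Real.coe_toNNReal _ (by positivity)]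
  have hvne : v ≠ 0 := by
    intro h
    rw [h] at hvr
    have : (0 : ℝ) < 1 / q := div_pos one_pos hq0
    rw [← hvr] at this
    simp at this
  rw [← hv, gaussianReal_of_var_ne_zero _ one_ne_zero, gaussianReal_of_var_ne_zero _ hvne,
    ← withDensity_mul _ (measurable_gaussianPDF _ _) (by fun_prop),
    ← withDensity_smul _ (measurable_gaussianPDF _ _)]
  congr 1
  funext x
  rw [Pi.mul_apply, Pi.smul_apply, smul_eq_mul]
  unfold gaussianPDF
  rw [← ENNReal.ofReal_mul (gaussianPDFReal_nonneg _ _ _), ← ENNReal.ofReal_mul (by positivity)]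
  congr 1
  unfold gaussianPDFReal
  rw [hvr, NNReal.coe_one]
  have e1 : Real.sqrt (2 * Real.pi * (1 / q)) =
      Real.sqrt (2 * Real.pi * 1) * (Real.sqrt q)⁻¹ := by
    rw [← Real.sqrt_inv, ← Real.sqrt_mul (by positivity)]
    congr 1
    ring
  rw [e1]
  have e3 : -(x - 0) ^ 2 / (2 * (1 : ℝ)) + (l * x + κ * x ^ 2 / 2) =
      l ^ 2 / q / 2 + -(x - l / q) ^ 2 / (2 * (1 / q)) := by
    have e4 : κ = 1 - q := by rw [hq]; ring
    rw [e4]
    field_simp
    ring
  have e5 : Real.sqrt q ≠ 0 := (Real.sqrt_pos.2 hq0).ne'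
  have e6 : Real.sqrt (2 * Real.pi * 1) ≠ 0 := (Real.sqrt_pos.2 (by positivity)).ne'
  calc (Real.sqrt (2 * Real.pi * 1))⁻¹ * Real.exp (-(x - 0) ^ 2 / (2 * 1)) *
        Real.exp (l * x + κ * x ^ 2 / 2) =
      (Real.sqrt (2 * Real.pi * 1))⁻¹ *
        Real.exp (-(x - 0) ^ 2 / (2 * 1) + (l * x + κ * x ^ 2 / 2)) := by
        rw [mul_assoc, ← Real.exp_add]
    _ = (Real.sqrt (2 * Real.pi * 1))⁻¹ * (Real.exp (l ^ 2 / q / 2) *
        Real.exp (-(x - l / q) ^ 2 / (2 * (1 / q)))) := by rw [e3, Real.exp_add]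
    _ = _ := by
      field_simp

/-- one dimensional tilt, integral form -/
theorem tilt_one_lintegral {κ : ℝ} (hκ : κ < 1) (l : ℝ) {R : ℝ → ℝ≥0∞} (hR : Measurable R) :
    ∫⁻ x, ENNReal.ofReal (Real.exp (l * x + κ * x ^ 2 / 2)) * R x ∂(gaussianReal 0 1) =
      ENNReal.ofReal ((Real.sqrt (1 - κ))⁻¹ * Real.exp (l ^ 2 / (1 - κ) / 2)) *
        ∫⁻ x, R x ∂(gaussianReal (l / (1 - κ)) (1 / (1 - κ)).toNNReal) := by
  have h1 := lintegral_withDensity_eq_lintegral_mul (gaussianReal 0 1)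
    (f := fun x => ENNReal.ofReal (Real.exp (l * x + κ * x ^ 2 / 2))) (by fun_prop) hR
  rw [tilt_one hκ l, lintegral_smul_measure] at h1
  rw [smul_eq_mul] at h1
  rw [h1]
  rfl

/-- the tilted product law -/
theorem tilt_pi {ι : Type*} [Fintype ι] {κ : ι → ℝ} (hκ : ∀ i, κ i < 1) (l : ι → ℝ) :
    (Measure.pi fun _ : ι => gaussianReal 0 1).withDensity
        (fun a => ENNReal.ofReal (Real.exp (∑ i, (l i * a i + κ i * a i ^ 2 / 2)))) =
      ENNReal.ofReal (∏ i, ((Real.sqrt (1 - κ i))⁻¹ * Real.exp (l i ^ 2 / (1 - κ i) / 2))) •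
        Measure.pi (fun i => gaussianReal (l i / (1 - κ i)) (1 / (1 - κ i)).toNNReal) := by
  classical
  have hc : ∀ i, 0 ≤ (Real.sqrt (1 - κ i))⁻¹ * Real.exp (l i ^ 2 / (1 - κ i) / 2) := fun i => by
    positivity
  have hfin : ∀ i, IsFiniteMeasure (ENNReal.ofReal ((Real.sqrt (1 - κ i))⁻¹ *
      Real.exp (l i ^ 2 / (1 - κ i) / 2)) •
        gaussianReal (l i / (1 - κ i)) (1 / (1 - κ i)).toNNReal) := fun i =>
    ⟨by
      rw [Measure.smul_apply, smul_eq_mul, measure_univ, mul_one]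
      exact ENNReal.ofReal_lt_top⟩
  have h1 : Measure.pi (fun i => ENNReal.ofReal ((Real.sqrt (1 - κ i))⁻¹ *
      Real.exp (l i ^ 2 / (1 - κ i) / 2)) •
        gaussianReal (l i / (1 - κ i)) (1 / (1 - κ i)).toNNReal) =
      (Measure.pi fun _ : ι => gaussianReal 0 1).withDensity
        (fun a => ENNReal.ofReal (Real.exp (∑ i, (l i * a i + κ i * a i ^ 2 / 2)))) := by
    refine Measure.pi_eq fun s hs => ?_
    rw [withDensity_apply _ (MeasurableSet.univ_pi hs)]
    rw [← lintegral_indicator (MeasurableSet.univ_pi hs)]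
    have h2 : ∀ a : ι → ℝ, (Set.univ.pi s).indicator
        (fun a => ENNReal.ofReal (Real.exp (∑ i, (l i * a i + κ i * a i ^ 2 / 2)))) a =
        ∏ i, (s i).indicator (fun x => ENNReal.ofReal (Real.exp (l i * x + κ i * x ^ 2 / 2)))
          (a i) := by
      intro a
      by_cases ha : a ∈ Set.univ.pi s
      · rw [Set.indicator_of_mem ha, Real.exp_sum,
          ENNReal.ofReal_prod_of_nonneg (fun i _ => (Real.exp_pos _).le)]
        refine Finset.prod_congr rfl fun i _ => ?_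
        rw [Set.indicator_of_mem (ha i (Set.mem_univ i))]
      · rw [Set.indicator_of_notMem ha]
        obtain ⟨i, hi⟩ : ∃ i, a i ∉ s i := by
          by_contra hcon
          push Not at hcon
          exact ha fun i _ => hcon i
        exact (Finset.prod_eq_zero (Finset.mem_univ i) (Set.indicator_of_notMem hi _)).symm
    rw [lintegral_congr h2, tonelli_pi (fun _ : ι => gaussianReal 0 1)
      (fun i => (s i).indicator (fun x => ENNReal.ofReal (Real.exp (l i * x + κ i * x ^ 2 / 2))))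
      (fun i => Measurable.indicator (by fun_prop) (hs i))]
    refine Finset.prod_congr rfl fun i _ => ?_
    rw [lintegral_indicator (hs i), ← withDensity_apply _ (hs i), tilt_one (hκ i) (l i)]
  rw [← h1]
  refine Measure.pi_eq fun s hs => ?_
  rw [Measure.smul_apply, Measure.pi_pi, smul_eq_mul,
    ENNReal.ofReal_prod_of_nonneg (fun i _ => hc i), ← Finset.prod_mul_distrib]
  refine Finset.prod_congr rfl fun i _ => ?_
  rw [Measure.smul_apply, smul_eq_mul]

/-- the tilt of the standard Gaussian vector, integral form -/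
theorem tilt_pi_lintegral {ι : Type*} [Fintype ι] {κ : ι → ℝ} (hκ : ∀ i, κ i < 1) (l : ι → ℝ)
    {R : (ι → ℝ) → ℝ≥0∞} (hR : Measurable R) :
    ∫⁻ a, ENNReal.ofReal (Real.exp (∑ i, (l i * a i + κ i * a i ^ 2 / 2))) * R a
      ∂(Measure.pi fun _ : ι => gaussianReal 0 1) =
      ENNReal.ofReal (∏ i, ((Real.sqrt (1 - κ i))⁻¹ * Real.exp (l i ^ 2 / (1 - κ i) / 2))) *
        ∫⁻ a, R a
          ∂(Measure.pi fun i => gaussianReal (l i / (1 - κ i)) (1 / (1 - κ i)).toNNReal) := by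
  have h1 := lintegral_withDensity_eq_lintegral_mul (Measure.pi fun _ : ι => gaussianReal 0 1)
    (f := fun a => ENNReal.ofReal (Real.exp (∑ i, (l i * a i + κ i * a i ^ 2 / 2))))
    (by fun_prop) hR
  rw [tilt_pi hκ l, lintegral_smul_measure, smul_eq_mul] at h1
  rw [h1]
  rfl

variable {Ω : Type*} [MeasurableSpace Ω] {ν : Measure Ω} [SFinite ν]

/-- **mixing, general bound**: the exponential moments of the linear combinations are bounded by
`H a` for almost every Gaussian vector `a` of coefficients. -/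
theorem mixR {ι : Type*} [Fintype ι] {W : Ω → ℝ≥0∞} (hW : Measurable W)
    {P : ι → Ω → ℝ} (hP : ∀ i, Measurable (P i)) {H : (ι → ℝ) → ℝ≥0∞}
    (h : ∀ᵐ a ∂(Measure.pi fun _ : ι => gaussianReal 0 1),
      ∫⁻ x, W x * ENNReal.ofReal (Real.exp (∑ i, a i * P i x)) ∂ν ≤ H a) :
    ∫⁻ x, W x * ENNReal.ofReal (Real.exp (∑ i, (P i x) ^ 2 / 2)) ∂ν ≤
      ∫⁻ a, H a ∂(Measure.pi fun _ : ι => gaussianReal 0 1) := by
  have h1 : ∀ x, W x * ENNReal.ofReal (Real.exp (∑ i, (P i x) ^ 2 / 2)) =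
      ∫⁻ a : ι → ℝ, W x * ENNReal.ofReal (Real.exp (∑ i, a i * P i x))
        ∂(Measure.pi fun _ : ι => gaussianReal 0 1) := by
    intro x
    rw [lintegral_const_mul _ (by fun_prop), lin_pi]
  rw [lintegral_congr h1, lintegral_lintegral_swap (by fun_prop)]
  exact lintegral_mono_ae h

/-- **diagonal family with a measurable factor** `R` in the bound -/
theorem mix_diagR {ι : Type*} [Fintype ι] {W : Ω → ℝ≥0∞} (hW : Measurable W)
    {P : ι → Ω → ℝ} (hP : ∀ i, Measurable (P i)) {B : ℝ≥0∞} {κ l : ι → ℝ} (hκ : ∀ i, κ i < 1)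
    {R : (ι → ℝ) → ℝ≥0∞} (hR : Measurable R)
    (h : ∀ a : ι → ℝ, ∫⁻ x, W x * ENNReal.ofReal (Real.exp (∑ i, a i * P i x)) ∂ν ≤
      B * ENNReal.ofReal (Real.exp (∑ i, (l i * a i + κ i * a i ^ 2 / 2))) * R a) :
    ∫⁻ x, W x * ENNReal.ofReal (Real.exp (∑ i, (P i x) ^ 2 / 2)) ∂ν ≤
      B * ENNReal.ofReal (∏ i, ((Real.sqrt (1 - κ i))⁻¹ * Real.exp (l i ^ 2 / (1 - κ i) / 2))) *
        ∫⁻ a, R a
          ∂(Measure.pi fun i => gaussianReal (l i / (1 - κ i)) (1 / (1 - κ i)).toNNReal) := by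
  refine (mixR hW hP (Filter.Eventually.of_forall h)).trans (le_of_eq ?_)
  rw [mul_assoc, ← tilt_pi_lintegral hκ l hR, ← lintegral_const_mul _ (by fun_prop)]
  refine lintegral_congr fun a => ?_
  rw [mul_assoc]

/-- one statistic with a measurable factor `R` in the bound -/
theorem mix_oneR {W : Ω → ℝ≥0∞} (hW : Measurable W) {P : Ω → ℝ} (hP : Measurable P)
    {B : ℝ≥0∞} {κ l : ℝ} (hκ : κ < 1) {R : ℝ → ℝ≥0∞} (hR : Measurable R)
    (h : ∀ s : ℝ, ∫⁻ x, W x * ENNReal.ofReal (Real.exp (s * P x)) ∂ν ≤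
      B * ENNReal.ofReal (Real.exp (l * s + κ * s ^ 2 / 2)) * R s) :
    ∫⁻ x, W x * ENNReal.ofReal (Real.exp ((P x) ^ 2 / 2)) ∂ν ≤
      B * ENNReal.ofReal ((Real.sqrt (1 - κ))⁻¹ * Real.exp (l ^ 2 / (1 - κ) / 2)) *
        ∫⁻ s, R s ∂(gaussianReal (l / (1 - κ)) (1 / (1 - κ)).toNNReal) := by
  have h1 : ∀ x, W x * ENNReal.ofReal (Real.exp ((P x) ^ 2 / 2)) =
      ∫⁻ y, W x * ENNReal.ofReal (Real.exp (y * P x)) ∂(gaussianReal 0 1) := by
    intro x
    rw [lintegral_const_mul _ (by fun_prop), gauss_lin]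
  rw [lintegral_congr h1, lintegral_lintegral_swap (by fun_prop), mul_assoc,
    ← tilt_one_lintegral hκ l hR, ← lintegral_const_mul _ (by fun_prop)]
  refine lintegral_mono fun y => (h y).trans (le_of_eq ?_)
  rw [mul_assoc]

end Pool.Agent.Szego62
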