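import Mathlib

/-! Determinant of the coefficient matrix of the Malmquist numerators
`p_i = ∏_{l<i} (X - b_l) ∏_{l>i} (1 - a_l X)` (degree `< r`):  `∏_{i<j} (1 - b_i a_j)`. -/

open Polynomial Matrix Finset

namespace Pool.Agent.Szego62

variable {R : Type*} [CommRing R]

/-- the polynomial `∏_{l<i} (X - b_l) ∏_{l>i} (1 - a_l X)` -/
noncomputable def pol (r : ℕ) (a b : Fin r → R) (i : Fin r) : R[X] :=
  (∏ l ∈ univ.filter (fun l => l < i), (X - C (b l))) *
    ∏ l ∈ univ.filter (fun l => i < l), (1 - C (a l) * X)

/-- coefficient matrix -/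
noncomputable def cM (r : ℕ) (a b : Fin r → R) : Matrix (Fin r) (Fin r) R :=
  Matrix.of fun i j => (pol r a b i).coeff j

theorem pol_castSucc (r : ℕ) (a b : Fin (r+1) → R) (i : Fin r) :
    pol (r+1) a b i.castSucc =
      pol r (fun l => a l.castSucc) (fun l => b l.castSucc) i * (1 - C (a (Fin.last r)) * X) := by
  unfold pol
  have h1 : (univ.filter (fun l : Fin (r+1) => l < i.castSucc)) =
      (univ.filter (fun l : Fin r => l < i)).map Fin.castSuccEmb := by
    ext l
    simp only [mem_filter, mem_univ, true_and, mem_map, Fin.coe_castSuccEmb]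
    constructor
    · intro h
      refine ⟨⟨l, by have := i.2; have := Fin.lt_def.mp h; simp at this; omega⟩, ?_, ?_⟩
      · exact Fin.lt_def.mpr (by have := Fin.lt_def.mp h; simpa using this)
      · ext; simp
    · rintro ⟨l', h, rfl⟩
      exact Fin.castSucc_lt_castSucc_iff.mpr h
  have h2 : (univ.filter (fun l : Fin (r+1) => i.castSucc < l)) =
      insert (Fin.last r) ((univ.filter (fun l : Fin r => i < l)).map Fin.castSuccEmb) := by
    ext l
    simp only [mem_filter, mem_univ, true_and, mem_insert, mem_map, Fin.coe_castSuccEmb]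
    constructor
    · intro h
      by_cases hl : l = Fin.last r
      · left; exact hl
      · right
        have hl' : (l : ℕ) < r := by
          have := l.2
          have h3 : (l : ℕ) ≠ r := fun h' => hl (Fin.ext (by simpa using h'))
          omega
        refine ⟨⟨l, hl'⟩, ?_, ?_⟩
        · exact Fin.lt_def.mpr (by have := Fin.lt_def.mp h; simpa using this)
        · ext; simp
    · rintro (rfl | ⟨l', h, rfl⟩)
      · exact Fin.castSucc_lt_last i
      · exact Fin.castSucc_lt_castSucc_iff.mpr h
  rw [h1, h2, prod_map, prod_insert, prod_map]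
  · simp only [Fin.coe_castSuccEmb]
    ring
  · simp only [mem_map, Fin.coe_castSuccEmb, not_exists, not_and]
    intro x _ hx
    exact (Fin.castSucc_lt_last x).ne hx

theorem pol_last (r : ℕ) (a b : Fin (r+1) → R) :
    pol (r+1) a b (Fin.last r) = ∏ l : Fin r, (X - C (b l.castSucc)) := by
  unfold pol
  have h1 : (univ.filter (fun l : Fin (r+1) => l < Fin.last r)) =
      (univ : Finset (Fin r)).map Fin.castSuccEmb := by
    ext l
    simp only [mem_filter, mem_univ, true_and, mem_map, Fin.coe_castSuccEmb]
    constructor
    · intro h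
      exact ⟨⟨l, Fin.lt_def.mp h⟩, by ext; simp⟩
    · rintro ⟨l', rfl⟩
      exact Fin.castSucc_lt_last l'
  have h2 : (univ.filter (fun l : Fin (r+1) => Fin.last r < l)) = ∅ := by
    ext l
    simp only [mem_filter, mem_univ, true_and, notMem_empty, iff_false, not_lt]
    exact Fin.le_last l
  rw [h1, h2, prod_map]
  simp

theorem natDegree_pol (r : ℕ) (a b : Fin r → R) (i : Fin r) : (pol r a b i).natDegree < r := by
  unfold pol
  have h1 : (∏ l ∈ univ.filter (fun l => l < i), (X - C (b l))).natDegree ≤
      (univ.filter (fun l : Fin r => l < i)).card := by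
    refine (natDegree_prod_le _ _).trans ?_
    rw [card_eq_sum_ones]
    exact sum_le_sum fun l _ => natDegree_X_sub_C_le _
  have h2 : (∏ l ∈ univ.filter (fun l => i < l), (1 - C (a l) * X)).natDegree ≤
      (univ.filter (fun l : Fin r => i < l)).card := by
    refine (natDegree_prod_le _ _).trans ?_
    rw [card_eq_sum_ones]
    refine sum_le_sum fun l _ => ?_
    refine (natDegree_sub_le _ _).trans ?_
    simp only [natDegree_one, zero_le, sup_of_le_right]
    exact (natDegree_C_mul_le _ _).trans natDegree_X_le
  refine lt_of_le_of_lt (natDegree_mul_le.trans (add_le_add h1 h2)) ?_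
  have h3 : (univ.filter (fun l : Fin r => l < i)).card + (univ.filter (fun l : Fin r => i < l)).card
      + 1 = r := by
    have := i.2
    have e1 : (univ.filter (fun l : Fin r => l < i)) = Finset.Iio i := by ext; simp
    have e2 : (univ.filter (fun l : Fin r => i < l)) = Finset.Ioi i := by ext; simp
    rw [e1, e2, Fin.card_Iio, Fin.card_Ioi]
    omega
  omega

/-- `hom n t p = ∑_j t^(n-j) p_j` -/
noncomputable def hom (n : ℕ) (t : R) (p : R[X]) : R := (p.reflect n).eval t

theorem hom_mul {n m : ℕ} (t : R) {p q : R[X]} (hp : p.natDegree ≤ n) (hq : q.natDegree ≤ m) :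
    hom (n + m) t (p * q) = hom n t p * hom m t q := by
  unfold hom
  rw [reflect_mul _ _ hp hq, eval_mul]

theorem hom_prod (t : R) (r : ℕ) (p : Fin r → R[X]) (hp : ∀ l, (p l).natDegree ≤ 1) :
    hom r t (∏ l, p l) = ∏ l, hom 1 t (p l) := by
  induction r with
  | zero => simp [hom]
  | succ r ih =>
    rw [Fin.prod_univ_castSucc, Fin.prod_univ_castSucc, hom_mul t _ (hp _), ih _ (fun l => hp _)]
    refine (natDegree_prod_le _ _).trans ?_
    calc _ ≤ ∑ l : Fin r, 1 := sum_le_sum fun l _ => hp _
      _ = r := by simp

theorem hom_eq_sum {n : ℕ} (t : R) {p : R[X]} (hp : p.natDegree ≤ n) :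
    hom n t p = ∑ j : Fin (n+1), t ^ (n - (j : ℕ)) * p.coeff j := by
  unfold hom
  rw [eval_eq_sum_range' (n := n+1)]
  · rw [← Fin.sum_univ_eq_sum_range (fun k => (p.reflect n).coeff k * t ^ k) (n+1)]
    rw [← Equiv.sum_comp (Fin.revPerm)]
    refine sum_congr rfl fun j _ => ?_
    have hj := j.2
    simp only [coeff_reflect, Fin.revPerm_apply, Fin.val_rev]
    have e1 : n + 1 - ((j : ℕ) + 1) = n - j := by omega
    rw [e1, revAt_le (by omega : n - (j : ℕ) ≤ n)]
    have e3 : n - (n - (j : ℕ)) = j := by omega
    rw [e3]
    ring
  · refine lt_of_le_of_lt ?_ (Nat.lt_succ_self n)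
    rw [natDegree_le_iff_coeff_eq_zero]
    intro N hN
    rw [coeff_reflect, revAt_eq_self_of_lt hN]
    exact coeff_eq_zero_of_natDegree_lt (lt_of_le_of_lt hp hN)

theorem hom_one_X_sub (t b : R) : hom 1 t (X - C b) = 1 - b * t := by
  have h : (X - C b : R[X]).natDegree ≤ 1 := natDegree_X_sub_C_le b
  rw [hom_eq_sum t h]
  simp [Fin.sum_univ_two, coeff_X, coeff_C]
  try ring

theorem hom_one_sub (t a : R) : hom 1 t (1 - C a * X) = t - a := by
  have h : (1 - C a * X : R[X]).natDegree ≤ 1 := by
    refine (natDegree_sub_le _ _).trans ?_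
    simp only [natDegree_one, zero_le, sup_of_le_right]
    exact (natDegree_C_mul_le _ _).trans natDegree_X_le
  rw [hom_eq_sum t h]
  simp [Fin.sum_univ_two, coeff_X, coeff_one]
  try ring

/-- determinant of the coefficient matrix -/
theorem det_cM (r : ℕ) (a b : Fin r → R) :
    (cM r a b).det = ∏ j : Fin r, ∏ i ∈ univ.filter (fun i => i < j), (1 - b i * a j) := by
  induction r with
  | zero => simp
  | succ r ih =>
    set a' : Fin r → R := fun l => a l.castSucc with ha'
    set b' : Fin r → R := fun l => b l.castSucc with hb'
    set t := a (Fin.last r) with ht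
    set M := cM (r+1) a b with hM
    have key : M.det = (M.updateCol (Fin.last r)
        (fun i => ∑ j : Fin (r+1), t ^ (r - (j : ℕ)) * M i j)).det := by
      have h := Matrix.det_updateCol_sum M (Fin.last r) (fun j => t ^ (r - (j : ℕ)))
      simp only [Fin.val_last, Nat.sub_self, pow_zero, one_smul] at h
      rw [← h]
      simp [smul_eq_mul]
    have hcol : ∀ i : Fin (r+1), (∑ j : Fin (r+1), t ^ (r - (j : ℕ)) * M i j) =
        if i = Fin.last r then ∏ l : Fin r, (1 - b' l * t) else 0 := by
      intro i
      have hrev : (∑ j : Fin (r+1), t ^ (r - (j : ℕ)) * M i j) = hom r t (pol (r+1) a b i) :=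
        (hom_eq_sum t (Nat.lt_succ_iff.mp (natDegree_pol _ _ _ _))).symm
      rw [hrev]
      refine Fin.lastCases ?_ (fun i' => ?_) i
      · rw [if_pos rfl, pol_last, hom_prod t r _ (fun l => natDegree_X_sub_C_le _)]
        exact prod_congr rfl fun l _ => hom_one_X_sub _ _
      · rw [if_neg (Fin.castSucc_lt_last i').ne, pol_castSucc]
        have hr : (r - 1) + 1 = r := by have := i'.2; omega
        have h1 : (pol r a' b' i').natDegree ≤ r - 1 := by
          have := natDegree_pol r a' b' i'
          omega
        have h2 : (1 - C (a (Fin.last r)) * X : R[X]).natDegree ≤ 1 := by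
          refine (natDegree_sub_le _ _).trans ?_
          simp only [natDegree_one, zero_le, sup_of_le_right]
          exact (natDegree_C_mul_le _ _).trans natDegree_X_le
        have h3 := hom_mul (n := r - 1) (m := 1) t h1 h2
        rw [hr, hom_one_sub] at h3
        rw [h3]
        simp [ht]
    rw [key]
    simp_rw [hcol]
    rw [Matrix.det_succ_column _ (Fin.last r), Finset.sum_eq_single (Fin.last r)]
    · simp only [Matrix.updateCol_self, if_true, Fin.val_last]
      have hsub : (Matrix.updateCol M (Fin.last r) (fun i => if i = Fin.last r then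
          ∏ l : Fin r, (1 - b' l * t) else 0)).submatrix (Fin.last r).succAbove
          (Fin.last r).succAbove = Matrix.of fun i j : Fin r =>
            (pol r a' b' i * (1 - C t * X)).coeff j := by
        ext i j
        simp only [Matrix.submatrix_apply, Fin.succAbove_last, Matrix.of_apply]
        rw [Matrix.updateCol_ne (Fin.castSucc_lt_last j).ne, hM, cM, Matrix.of_apply,
          pol_castSucc]
        simp [ha', hb', ht]
      rw [hsub]
      have hdet : (Matrix.of fun i j : Fin r =>
            (pol r a' b' i * (1 - C t * X)).coeff j).det = (cM r a' b').det := by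
        cases r with
        | zero => simp
        | succ n =>
          symm
          refine Matrix.det_eq_of_forall_col_eq_smul_add_pred (fun _ => t) ?_ ?_
          · intro i
            simp [cM, mul_sub, coeff_zero_eq_eval_zero]
          · intro i j
            simp only [cM, Matrix.of_apply, Fin.val_succ, Fin.val_castSucc, mul_sub, mul_one,
              coeff_sub]
            have : (pol (n + 1) a' b' i * (C t * X)).coeff (j + 1) =
                t * (pol (n + 1) a' b' i).coeff j := by
              rw [← mul_assoc, coeff_mul_X, mul_comm, coeff_C_mul]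
            rw [this]
            ring
      rw [hdet, ih]
      have hs : ((-1 : R)) ^ (r + r) = 1 := Even.neg_one_pow ⟨r, rfl⟩
      rw [hs, one_mul, Fin.prod_univ_castSucc, mul_comm]
      congr 1
      · refine prod_congr rfl fun j _ => ?_
        have h1 : (univ.filter (fun l : Fin (r+1) => l < j.castSucc)) =
            (univ.filter (fun l : Fin r => l < j)).map Fin.castSuccEmb := by
          ext l
          simp only [mem_filter, mem_univ, true_and, mem_map, Fin.coe_castSuccEmb]
          constructor
          · intro h
            refine ⟨⟨l, by have := j.2; have := Fin.lt_def.mp h; simp at this; omega⟩, ?_, ?_⟩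
            · exact Fin.lt_def.mpr (by have := Fin.lt_def.mp h; simpa using this)
            · ext; simp
          · rintro ⟨l', h, rfl⟩
            exact Fin.castSucc_lt_castSucc_iff.mpr h
        rw [h1, prod_map]
        rfl
      · have h1 : (univ.filter (fun l : Fin (r+1) => l < Fin.last r)) =
            (univ : Finset (Fin r)).map Fin.castSuccEmb := by
          ext l
          simp only [mem_filter, mem_univ, true_and, mem_map, Fin.coe_castSuccEmb]
          constructor
          · intro h
            exact ⟨⟨l, Fin.lt_def.mp h⟩, by ext; simp⟩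
          · rintro ⟨l', rfl⟩
            exact Fin.castSucc_lt_last l'
        rw [h1, prod_map]
        rfl
    · intro i _ hi
      rw [Matrix.updateCol_self, if_neg hi]
      simp
    · intro h
      exact absurd (mem_univ _) h

end Pool.Agent.Szego62
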