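import Mathlib

/-! Gram matrices for the circle average pairing and monotonicity of Toeplitz determinants. -/

open Matrix Finset Metric MeasureTheory Real
open scoped ComplexOrder ComplexConjugate

namespace Pool.Agent.Szego62

/-- `⟨f, g⟩ =` circle average of `f * conj g` on the unit circle -/
noncomputable def ip (f g : ℂ → ℂ) : ℂ := circleAverage (fun z => f z * conj (g z)) 0 1

/-- continuity on the unit circle -/
abbrev CS (f : ℂ → ℂ) : Prop := ContinuousOn f (sphere (0 : ℂ) 1)

theorem CS.ci {f : ℂ → ℂ} (hf : CS f) : CircleIntegrable f 0 1 :=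
  ContinuousOn.circleIntegrable (by norm_num) hf

theorem CS.conj {f : ℂ → ℂ} (hf : CS f) : CS (fun z => conj (f z)) :=
  Complex.continuous_conj.comp_continuousOn hf

theorem CS.ip_ci {f g : ℂ → ℂ} (hf : CS f) (hg : CS g) :
    CircleIntegrable (fun z => f z * conj (g z)) 0 1 :=
  CS.ci (ContinuousOn.mul hf hg.conj)

theorem ip_congr {f f' g g' : ℂ → ℂ} (h : ∀ z ∈ sphere (0 : ℂ) 1, f z = f' z)
    (h' : ∀ z ∈ sphere (0 : ℂ) 1, g z = g' z) : ip f g = ip f' g' := by
  unfold ip
  apply circleAverage_congr_sphere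
  intro z hz
  have hz' : z ∈ sphere (0 : ℂ) 1 := by simpa using hz
  simp only [h z hz', h' z hz']

theorem ip_sum_left {ι : Type*} (s : Finset ι) (c : ι → ℂ) (f : ι → ℂ → ℂ) (g : ℂ → ℂ)
    (hf : ∀ i, CS (f i)) (hg : CS g) :
    ip (fun z => ∑ i ∈ s, c i * f i z) g = ∑ i ∈ s, c i * ip (f i) g := by
  unfold ip
  have h1 : (fun z => (∑ i ∈ s, c i * f i z) * conj (g z)) =
      fun z => ∑ i ∈ s, c i • (f i z * conj (g z)) := by
    funext z
    rw [sum_mul]
    exact sum_congr rfl fun i _ => by rw [smul_eq_mul]; ring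
  rw [h1, circleAverage_fun_sum]
  · exact sum_congr rfl fun i _ => by rw [circleAverage_fun_smul, smul_eq_mul]
  · intro i _
    exact CS.ci ((continuousOn_const (c := c i)).smul (ContinuousOn.mul (hf i) hg.conj))

theorem conj_ip (f g : ℂ → ℂ) (hf : CS f) (hg : CS g) : conj (ip f g) = ip g f := by
  unfold ip
  have h := ContinuousLinearMap.circleAverage_comp_comm
    (Complex.conjCLE : ℂ →L[ℝ] ℂ) (f := fun z => f z * conj (g z)) (hf.ip_ci hg)
  simp only [Function.comp_def] at h
  have h2 : (fun z => g z * conj (f z)) =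
      fun z => (Complex.conjCLE : ℂ →L[ℝ] ℂ) (f z * conj (g z)) := by
    funext z
    simp [mul_comm]
  rw [h2, h]
  simp

theorem ip_sum_right {ι : Type*} (s : Finset ι) (c : ι → ℂ) (f : ι → ℂ → ℂ) (g : ℂ → ℂ)
    (hf : ∀ i, CS (f i)) (hg : CS g) :
    ip g (fun z => ∑ i ∈ s, c i * f i z) = ∑ i ∈ s, conj (c i) * ip g (f i) := by
  have hs : CS (fun z => ∑ i ∈ s, c i * f i z) :=
    continuousOn_finsetSum _ fun i _ => continuousOn_const.mul (hf i)
  rw [← conj_ip _ _ hs hg, ip_sum_left s c f g hf hg, map_sum]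
  refine sum_congr rfl fun i _ => ?_
  rw [map_mul, conj_ip _ _ (hf i) hg]

/-- Gram matrix -/
noncomputable def gram {n : ℕ} (f : Fin n → ℂ → ℂ) : Matrix (Fin n) (Fin n) ℂ :=
  Matrix.of fun j k => ip (f j) (f k)

theorem gram_lin {m n : ℕ} (B : Matrix (Fin m) (Fin n) ℂ) (f : Fin n → ℂ → ℂ)
    (g : Fin m → ℂ → ℂ) (hf : ∀ j, CS (f j))
    (h : ∀ i, ∀ z ∈ sphere (0 : ℂ) 1, g i z = ∑ j, B i j * f j z) :
    gram g = B * gram f * Bᴴ := by
  ext i k
  simp only [gram, of_apply, mul_apply, conjTranspose_apply]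
  have hs : ∀ i, CS (fun z => ∑ j, B i j * f j z) := fun i =>
    continuousOn_finsetSum _ fun j _ => continuousOn_const.mul (hf j)
  rw [ip_congr (h i) (h k), ip_sum_right univ (fun j => B k j) f _ hf (hs i)]
  refine sum_congr rfl fun j _ => ?_
  rw [ip_sum_left univ (fun j => B i j) f _ hf (hf j)]
  rw [sum_mul, mul_sum]
  refine sum_congr rfl fun l _ => ?_
  simp only [RCLike.star_def]
  ring

theorem gram_posSemidef {n : ℕ} (f : Fin n → ℂ → ℂ) (hf : ∀ j, CS (f j)) :
    (gram f).PosSemidef := by
  refine Matrix.PosSemidef.of_dotProduct_mulVec_nonneg ?_ ?_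
  · ext j k
    simp only [gram, conjTranspose_apply, of_apply]
    exact conj_ip _ _ (hf k) (hf j)
  · intro x
    have h1 : star x ⬝ᵥ (gram f).mulVec x =
        ip (fun z => ∑ j, conj (x j) * f j z) (fun z => ∑ j, conj (x j) * f j z) := by
      have hs : CS (fun z => ∑ j, conj (x j) * f j z) :=
        continuousOn_finsetSum _ fun j _ => continuousOn_const.mul (hf j)
      rw [ip_sum_left univ (fun j => conj (x j)) f _ hf hs]
      simp only [dotProduct, mulVec, gram, of_apply, Pi.star_apply, RCLike.star_def]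
      refine sum_congr rfl fun j _ => ?_
      rw [ip_sum_right univ (fun j => conj (x j)) f _ hf (hf j)]
      congr 1
      refine sum_congr rfl fun k _ => ?_
      simp [mul_comm]
    rw [h1]
    unfold ip
    have h2 : (fun z => (∑ j, conj (x j) * f j z) * conj (∑ j, conj (x j) * f j z)) =
        fun z => (Complex.ofRealCLM (Complex.normSq (∑ j, conj (x j) * f j z))) := by
      funext z
      rw [Complex.mul_conj]
      rfl
    have hc : ContinuousOn (fun z => Complex.normSq (∑ j, conj (x j) * f j z))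
        (sphere (0 : ℂ) 1) :=
      Complex.continuous_normSq.comp_continuousOn
        (continuousOn_finsetSum _ fun j _ => continuousOn_const.mul (hf j))
    have h3 := ContinuousLinearMap.circleAverage_comp_comm Complex.ofRealCLM
      (f := fun z => Complex.normSq (∑ j, conj (x j) * f j z))
      (ContinuousOn.circleIntegrable (c := 0) (R := 1) (by norm_num) hc)
    simp only [Function.comp_def] at h3
    rw [h2, h3]
    have h4 : 0 ≤ circleAverage (fun z => Complex.normSq (∑ j, conj (x j) * f j z)) 0 1 :=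
      circleAverage_nonneg_of_nonneg fun z _ => Complex.normSq_nonneg _
    simpa using h4

/-- Toeplitz type Gram matrix of `z^j f`, `j < n` (weight `|f|^2`) -/
noncomputable def toep (n : ℕ) (f : ℂ → ℂ) : Matrix (Fin n) (Fin n) ℂ :=
  gram fun (j : Fin n) z => z ^ (j : ℕ) * f z

theorem CS.zpow {f : ℂ → ℂ} (hf : CS f) (k : ℕ) : CS (fun z => z ^ k * f z) :=
  (continuousOn_id.pow k).mul hf

theorem ip_shift (f g : ℂ → ℂ) : ip (fun z => z * f z) (fun z => z * g z) = ip f g := by
  unfold ip
  apply circleAverage_congr_sphere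
  intro z hz
  have hz' : ‖z‖ = 1 := by simpa using hz
  have : z * conj z = 1 := by
    rw [Complex.mul_conj, Complex.normSq_eq_norm_sq, hz']
    norm_num
  simp only [map_mul]
  linear_combination (f z * conj (g z)) * this

/-- the Toeplitz property -/
theorem toep_submatrix (n : ℕ) (f : ℂ → ℂ) :
    (toep (n+1) f).submatrix Fin.succ Fin.succ = toep n f := by
  ext j k
  simp only [toep, gram, submatrix_apply, of_apply, Fin.val_succ]
  rw [← ip_shift (fun z => z ^ (j : ℕ) * f z) (fun z => z ^ (k : ℕ) * f z)]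
  congr 1 <;> funext z <;> ring

theorem diffContOnCl_pow_mul {f : ℂ → ℂ} (hf : DiffContOnCl ℂ f (ball 0 1)) (k : ℕ) :
    DiffContOnCl ℂ (fun z => z ^ k * f z) (ball 0 1) := by
  have h1 : DiffContOnCl ℂ (fun z : ℂ => z ^ k) (ball 0 1) :=
    (differentiable_id.pow k).diffContOnCl
  exact h1.smul hf

theorem cs_of_diffContOnCl {f : ℂ → ℂ} (hf : DiffContOnCl ℂ f (ball 0 1)) : CS f := by
  refine hf.2.mono ?_
  rw [closure_ball _ (by norm_num)]
  exact sphere_subset_closedBall

theorem avg_eq {f : ℂ → ℂ} (hf : DiffContOnCl ℂ f (ball 0 1)) : circleAverage f 0 1 = f 0 := by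
  have h := DiffContOnCl.circleAverage (f := f) (c := 0) (R := 1) (by simpa using hf)
  exact h

theorem ip_one_right {f : ℂ → ℂ} (hf : DiffContOnCl ℂ f (ball 0 1)) :
    ip f (fun _ => 1) = f 0 := by
  unfold ip
  simpa using avg_eq hf

/-- monotonicity of the determinants (`f(0) = 1`) -/
theorem toep_det_mono (n : ℕ) {f : ℂ → ℂ} (hf : DiffContOnCl ℂ f (ball 0 1)) (h0 : f 0 = 1) :
    (toep n f).det ≤ (toep (n+1) f).det := by
  have hcs := cs_of_diffContOnCl hf
  set g : Fin (n+1) → ℂ → ℂ := fun j z => if j = 0 then f z - 1 else z ^ (j : ℕ) * f z with hg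
  have hgc : ∀ j, CS (g j) := by
    intro j
    by_cases hj : j = 0
    · simp only [hg, hj, if_true]
      exact hcs.sub continuousOn_const
    · simp only [hg, hj, if_false]
      exact hcs.zpow _
  have hps := (gram_posSemidef g hgc).det_nonneg
  have hrow : (toep (n+1) f) = (gram g).updateRow 0 ((gram g) 0 + Pi.single 0 1) := by
    ext j k
    have c1 : CS (fun _ : ℂ => (1 : ℂ)) := continuousOn_const
    have cf1 : CS (fun z : ℂ => f z - 1) := hcs.sub continuousOn_const
    have esub : ∀ k : Fin (n+1), ∀ h : ℂ → ℂ, CS h → ip (fun z => f z - 1) h =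
        ip f h - ip (fun _ => 1) h := by
      intro k h hh
      unfold ip
      have : (fun z => (f z - 1) * conj (h z)) =
          fun z => f z * conj (h z) - 1 * conj (h z) := by funext z; ring
      rw [this, circleAverage_fun_sub (hcs.ip_ci hh) (c1.ip_ci hh)]
    have hk0 : ∀ k : Fin (n+1), k ≠ 0 → ip (fun _ => 1) (fun z => z ^ (k : ℕ) * f z) = 0 := by
      intro k hk
      rw [← conj_ip _ _ (hcs.zpow _) c1, ip_one_right (diffContOnCl_pow_mul hf _)]
      have : (k : ℕ) ≠ 0 := fun h => hk (Fin.ext h)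
      simp [this]
    by_cases hj : j = 0
    · subst hj
      rw [updateRow_self]
      simp only [toep, gram, of_apply, Pi.add_apply]
      by_cases hk : k = 0
      · subst hk
        simp only [hg, if_true, Pi.single_eq_same, Fin.val_zero, pow_zero, one_mul]
        have e1 : ip (fun z => f z - 1) (fun z => f z - 1) = ip f f - 1 := by
          rw [esub 0 (fun z => f z - 1) cf1]
          rw [← conj_ip (fun z => f z - 1) f cf1 hcs, esub 0 _ hcs]
          rw [← conj_ip (fun z => f z - 1) _ cf1 c1, esub 0 _ c1]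
          rw [← conj_ip f _ hcs c1, ip_one_right hf, h0]
          have : ip (fun _ : ℂ => (1:ℂ)) (fun _ => 1) = 1 :=
            ip_one_right (differentiable_const 1).diffContOnCl
          rw [this]
          simp only [map_one, map_sub, sub_self, map_zero, sub_zero]
          rw [conj_ip _ _ hcs hcs]
        rw [e1]
        ring
      · rw [Pi.single_eq_of_ne hk]
        simp only [hg, if_true, hk, if_false, Fin.val_zero, pow_zero, one_mul, add_zero]
        rw [esub 0 _ (hcs.zpow _), hk0 k hk, sub_zero]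
    · rw [updateRow_ne hj]
      simp only [toep, gram, of_apply]
      by_cases hk : k = 0
      · subst hk
        simp only [hg, hj, if_false, if_true, Fin.val_zero, pow_zero, one_mul]
        rw [← conj_ip f _ hcs (hcs.zpow _),
          ← conj_ip (fun z => f z - 1) _ cf1 (hcs.zpow _),
          esub 0 _ (hcs.zpow _), hk0 j hj, sub_zero]
      · simp only [hg, hj, hk, if_false]
  have hdet : (toep (n+1) f).det = (gram g).det + (toep n f).det := by
    have h1 : (toep (n+1) f).det = (gram g).det +
        ((gram g).updateRow 0 (Pi.single 0 1)).det := by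
      conv_lhs => rw [hrow]
      rw [det_updateRow_add, updateRow_eq_self]
    rw [h1]
    congr 1
    have h2 : (gram g).updateRow 0 (Pi.single 0 1) =
        (toep (n+1) f).updateRow 0 (Pi.single 0 1) := by
      rw [hrow, updateRow_idem]
    rw [h2, det_succ_row_zero, Finset.sum_eq_single 0]
    · simp only [updateRow_self, Pi.single_eq_same, Fin.val_zero, pow_zero, one_mul,
        Fin.succAbove_zero]
      rw [← toep_submatrix n f]
      congr 1
    · intro k _ hk
      simp [Pi.single_eq_of_ne hk]
    · intro h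
      exact absurd (mem_univ _) h
  rw [hdet]
  exact le_add_of_nonneg_left hps

end Pool.Agent.Szego62
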