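import Pool.Agent.Szego62.Coef
import Pool.Agent.Szego62.Gram

/-! Exact Toeplitz determinant of the weight `∏ |1 - a_i z|^{-2}` (size = number of factors). -/

open Matrix Finset Metric MeasureTheory Real
open scoped ComplexOrder ComplexConjugate

namespace Pool.Agent.Szego62

theorem prod_split1 {r : ℕ} {M : Type*} [CommMonoid M] (G : Fin r → M) (j : Fin r) :
    ∏ i, G i = G j * (∏ i ∈ univ.filter (fun i => i < j), G i) *
      (∏ i ∈ univ.filter (fun i => j < i), G i) := by
  have h2 : (univ : Finset (Fin r)) = insert j ((univ.filter (fun i => i < j)) ∪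
      (univ.filter (fun i => j < i))) := by
    ext i
    simp only [mem_univ, mem_insert, mem_union, mem_filter, true_and, true_iff]
    rcases lt_trichotomy i j with h | h | h
    · right; left; exact h
    · left; exact h
    · right; right; exact h
  conv_lhs => rw [h2]
  rw [prod_insert, prod_union, mul_assoc]
  · rw [disjoint_left]
    intro i hi hi'
    simp only [mem_filter, mem_univ, true_and] at hi hi'
    exact absurd hi hi'.asymm
  · simp

theorem prod_split {r : ℕ} {M : Type*} [CommMonoid M] (F : Fin r → Fin r → M) :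
    ∏ j, ∏ i, F i j = (∏ j, F j j) * (∏ j, ∏ i ∈ univ.filter (fun i => i < j), F i j) *
      (∏ j, ∏ i ∈ univ.filter (fun i => i < j), F j i) := by
  have h1 : ∀ j : Fin r, ∏ i, F i j = F j j * (∏ i ∈ univ.filter (fun i => i < j), F i j) *
      (∏ i ∈ univ.filter (fun i => j < i), F i j) := fun j => prod_split1 (fun i => F i j) j
  simp_rw [h1]
  rw [prod_mul_distrib, prod_mul_distrib]
  congr 1
  rw [prod_sigma', prod_sigma']
  refine prod_bij' (fun x _ => ⟨x.2, x.1⟩) (fun x _ => ⟨x.2, x.1⟩) ?_ ?_ ?_ ?_ ?_
  · intro x hx; simpa using hx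
  · intro x hx; simpa using hx
  · intro x _; rfl
  · intro x _; rfl
  · intro x _; rfl

/-- `f(z) = ∏ (1 - a_i z)⁻¹` -/
noncomputable def fa {r : ℕ} (a : Fin r → ℂ) (z : ℂ) : ℂ := ∏ i, (1 - a i * z)⁻¹

theorem one_sub_ne {a z : ℂ} (ha : ‖a‖ < 1) (hz : ‖z‖ ≤ 1) : 1 - a * z ≠ 0 := by
  intro h
  have h1 : a * z = 1 := (sub_eq_zero.mp h).symm
  have h2 : ‖a * z‖ < 1 := by
    rw [norm_mul]
    calc ‖a‖ * ‖z‖ ≤ ‖a‖ * 1 := by gcongr
      _ < 1 := by simpa using ha
  rw [h1] at h2
  simp at h2

theorem dcc_of_diff {f : ℂ → ℂ} (h : ∀ z, ‖z‖ ≤ 1 → DifferentiableAt ℂ f z) :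
    DiffContOnCl ℂ f (ball 0 1) := by
  constructor
  · intro z hz
    exact (h z (by simpa using (mem_ball_zero_iff.mp hz).le)).differentiableWithinAt
  · rw [closure_ball _ (by norm_num)]
    intro z hz
    exact (h z (by simpa using hz)).continuousAt.continuousWithinAt

theorem diff_inv {a z : ℂ} (ha : ‖a‖ < 1) (hz : ‖z‖ ≤ 1) :
    DifferentiableAt ℂ (fun z => (1 - a * z)⁻¹) z := by
  apply DifferentiableAt.inv
  · fun_prop
  · exact one_sub_ne ha hz

theorem fa_diff {r : ℕ} {a : Fin r → ℂ} (ha : ∀ i, ‖a i‖ < 1) {z : ℂ} (hz : ‖z‖ ≤ 1) :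
    DifferentiableAt ℂ (fa a) z := by
  unfold fa
  exact DifferentiableAt.fun_finsetProd fun i _ => diff_inv (ha i) hz

theorem fa_zero {r : ℕ} (a : Fin r → ℂ) : fa a 0 = 1 := by simp [fa]

theorem det_toep_fa {r : ℕ} (a : Fin r → ℂ) (ha : ∀ i, ‖a i‖ < 1) :
    (toep r (fa a)).det * ∏ j, ∏ i, (1 - conj (a i) * a j) = 1 := by
  set b : Fin r → ℂ := fun i => conj (a i) with hb
  have hbn : ∀ i, ‖b i‖ < 1 := fun i => by simpa [hb] using ha i
  set E : Fin r → ℂ → ℂ := fun i z => (pol r a b i).eval z * fa a z with hE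
  have hcf : CS (fa a) := cs_of_diffContOnCl (dcc_of_diff fun z hz => fa_diff ha hz)
  -- Gram matrix of E
  have hG : gram E = cM r a b * toep r (fa a) * (cM r a b)ᴴ := by
    unfold toep
    refine gram_lin _ _ _ (fun j => hcf.zpow _) ?_
    intro i z _
    simp only [hE, cM, of_apply]
    rw [Polynomial.eval_eq_sum_range' (natDegree_pol r a b i), sum_mul,
      ← Fin.sum_univ_eq_sum_range (fun k => (pol r a b i).coeff k * z ^ k * fa a z) r]
    exact sum_congr rfl fun j _ => by ring
  -- simplified form of E
  have hEs : ∀ i, ∀ z : ℂ, ‖z‖ ≤ 1 → E i z =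
      (∏ l ∈ univ.filter (fun l => l < i), ((z - b l) * (1 - a l * z)⁻¹)) * (1 - a i * z)⁻¹ := by
    intro i z hz
    simp only [hE, pol, fa]
    rw [prod_split1 (fun l => (1 - a l * z)⁻¹) i, Polynomial.eval_mul, Polynomial.eval_prod,
      Polynomial.eval_prod, prod_mul_distrib]
    simp only [Polynomial.eval_sub, Polynomial.eval_X, Polynomial.eval_C, Polynomial.eval_one,
      Polynomial.eval_mul]
    have h3 : (∏ l ∈ univ.filter (fun l => i < l), (1 - a l * z)) *
        (∏ l ∈ univ.filter (fun l => i < l), (1 - a l * z)⁻¹) = 1 := by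
      rw [← prod_mul_distrib]
      exact prod_eq_one fun l _ => mul_inv_cancel₀ (one_sub_ne (ha l) hz)
    linear_combination ((∏ l ∈ univ.filter (fun l => l < i), (z - b l)) *
      (∏ l ∈ univ.filter (fun l => l < i), (1 - a l * z)⁻¹) * (1 - a i * z)⁻¹) * h3
  have hEc : ∀ i, CS (E i) := by
    intro i
    exact (Polynomial.continuous _).continuousOn.mul hcf
  -- orthogonality
  have horth : ∀ i k : Fin r, i ≤ k → ip (E k) (E i) = if i = k then (1 - b i * a i)⁻¹ else 0 := by
    intro i k hik
    set F : ℂ → ℂ := fun z => (∏ l ∈ univ.filter (fun l => i ≤ l ∧ l < k),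
      ((z - b l) * (1 - a l * z)⁻¹)) * (1 - a k * z)⁻¹ with hF
    have hFd : DiffContOnCl ℂ F (ball 0 1) := by
      refine dcc_of_diff fun z hz => ?_
      refine DifferentiableAt.mul (DifferentiableAt.fun_finsetProd fun l _ => ?_)
        (diff_inv (ha k) hz)
      exact (differentiableAt_id.sub_const _).mul (diff_inv (ha l) hz)
    have hw : b i ∈ ball (0 : ℂ) |1| := by simpa using hbn i
    have havg := DiffContOnCl.circleAverage_smul_div (f := F) (c := 0) (R := 1)
      (by simpa using hFd) hw
    have hF2 : F (b i) = if i = k then (1 - b i * a i)⁻¹ else 0 := by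
      by_cases h : i = k
      · subst h
        simp only [hF, if_true]
        have : (univ.filter (fun l : Fin r => i ≤ l ∧ l < i)) = ∅ := by
          ext l
          simp only [mem_filter, mem_univ, true_and, notMem_empty, iff_false, not_and, not_lt]
          exact fun h => h
        rw [this, prod_empty, one_mul, mul_comm (a i)]
      · simp only [hF, h, if_false]
        have hmem : i ∈ univ.filter (fun l : Fin r => i ≤ l ∧ l < k) := by
          simp only [mem_filter, mem_univ, true_and, le_refl]
          exact lt_of_le_of_ne hik h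
        rw [prod_eq_zero hmem (by simp), zero_mul]
    rw [← hF2, ← havg]
    unfold ip
    apply circleAverage_congr_sphere
    intro z hz
    have hz1 : ‖z‖ = 1 := by simpa using hz
    have hzz : z * conj z = 1 := by
      rw [Complex.mul_conj, Complex.normSq_eq_norm_sq, hz1]
      norm_num
    have hz0 : z ≠ 0 := by
      intro h; rw [h] at hz1; simp at hz1
    have hcz : conj z = z⁻¹ := eq_inv_of_mul_eq_one_right hzz
    -- conj of factors
    have hzb : ∀ l, z - b l ≠ 0 := by
      intro l h
      have : z = b l := sub_eq_zero.mp h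
      have h1 := hbn l
      rw [← this, hz1] at h1
      exact lt_irrefl _ h1
    have hc1 : ∀ l, conj ((z - b l) * (1 - a l * z)⁻¹) = ((z - b l) * (1 - a l * z)⁻¹)⁻¹ := by
      intro l
      have e1 : conj (1 - a l * z) = (z - b l) * z⁻¹ := by
        simp only [map_sub, map_one, map_mul, hcz, hb]
        field_simp
      have e2 : conj (z - b l) = (1 - a l * z) * z⁻¹ := by
        simp only [map_sub, hcz, hb, Complex.conj_conj]
        field_simp
      rw [map_mul, map_inv₀, e1, e2]
      have q1 := hzb l
      have q2 := one_sub_ne (ha l) hz1.le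
      field_simp
    have hc2 : conj ((1 - a i * z)⁻¹) = z * (z - b i)⁻¹ := by
      have e1 : conj (1 - a i * z) = (z - b i) * z⁻¹ := by
        simp only [map_sub, map_one, map_mul, hcz, hb]
        field_simp
      rw [map_inv₀, e1, mul_inv, inv_inv, mul_comm]
    simp only
    rw [hEs k z hz1.le, hEs i z hz1.le, map_mul, hc2, map_prod]
    simp_rw [hc1]
    have hsplit : (univ.filter (fun l : Fin r => l < k)) =
        (univ.filter (fun l : Fin r => l < i)) ∪ (univ.filter (fun l : Fin r => i ≤ l ∧ l < k)) := by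
      ext l
      simp only [mem_filter, mem_univ, true_and, mem_union]
      constructor
      · intro h
        rcases lt_or_ge l i with h' | h'
        · left; exact h'
        · right; exact ⟨h', h⟩
      · rintro (h | h)
        · exact lt_of_lt_of_le h hik
        · exact h.2
    rw [hsplit, prod_union]
    · rw [prod_inv_distrib]
      have hne : (∏ l ∈ univ.filter (fun l : Fin r => l < i), ((z - b l) * (1 - a l * z)⁻¹)) ≠ 0 := by
        refine prod_ne_zero_iff.mpr fun l _ => mul_ne_zero (hzb l) (inv_ne_zero (one_sub_ne (ha l) hz1.le))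
      simp only [hF, smul_eq_mul, sub_zero]
      set A := (∏ l ∈ univ.filter (fun l : Fin r => l < i), ((z - b l) * (1 - a l * z)⁻¹)) with hA
      field_simp
    · rw [disjoint_left]
      intro l hl hl'
      simp only [mem_filter, mem_univ, true_and] at hl hl'
      exact absurd hl (not_lt.mpr hl'.1)
  -- the Gram matrix is diagonal
  have hdiag : gram E = diagonal fun i => (1 - b i * a i)⁻¹ := by
    ext i k
    simp only [gram, of_apply, diagonal_apply]
    rcases le_total k i with h | h
    · rw [horth k i h]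
      by_cases h' : k = i
      · subst h'; simp
      · rw [if_neg h', if_neg (fun h'' => h' h''.symm)]
    · rw [← conj_ip _ _ (hEc k) (hEc i), horth i k h]
      by_cases h' : i = k
      · subst h'
        simp only [if_true]
        rw [map_inv₀]
        simp only [hb, map_sub, map_one, map_mul, Complex.conj_conj]
        rw [mul_comm]
      · rw [if_neg h', map_zero]
  have hdet := congrArg Matrix.det hG
  rw [hdiag, det_diagonal, det_mul, det_mul, det_conjTranspose, det_cM, prod_inv_distrib] at hdet
  have hne : (∏ i, (1 - b i * a i)) ≠ 0 :=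
    prod_ne_zero_iff.mpr fun i _ => one_sub_ne (hbn i) (ha i).le
  rw [prod_split]
  have hstar : star (∏ j, ∏ i ∈ univ.filter (fun i => i < j), (1 - b i * a j)) =
      ∏ j, ∏ i ∈ univ.filter (fun i => i < j), (1 - conj (a j) * a i) := by
    simp only [RCLike.star_def, map_prod, map_sub, map_one, map_mul, hb, Complex.conj_conj]
    exact prod_congr rfl fun j _ => prod_congr rfl fun i _ => by ring
  rw [hstar] at hdet
  have hb' : ∀ i, conj (a i) = b i := fun i => rfl
  simp only [hb'] at hdet ⊢
  set P := ∏ i, (1 - b i * a i)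
  set Q := ∏ j, ∏ i ∈ univ.filter (fun i => i < j), (1 - b i * a j)
  set S := ∏ j, ∏ i ∈ univ.filter (fun i => i < j), (1 - b j * a i)
  calc (toep r (fa a)).det * (P * Q * S) = P * (Q * (toep r (fa a)).det * S) := by ring
    _ = P * P⁻¹ := by rw [hdet]
    _ = 1 := mul_inv_cancel₀ hne

end Pool.Agent.Szego62
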