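import Pool.Agent.Szego62.Exact

/-! The sharp Szegő upper bound for `|exp v|²`, `v` a polynomial with `v(0) = 0`. -/

open Matrix Finset Metric MeasureTheory Real Filter Topology Polynomial
open scoped ComplexOrder ComplexConjugate

namespace Pool.Agent.Szego62

theorem toep_det_mono' {f : ℂ → ℂ} (hf : DiffContOnCl ℂ f (ball 0 1)) (h0 : f 0 = 1)
    {n m : ℕ} (h : n ≤ m) : (toep n f).det ≤ (toep m f).det := by
  induction m, h using Nat.le_induction with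
  | base => exact le_rfl
  | succ m _ ih => exact ih.trans (toep_det_mono m hf h0)

theorem det_le_of_fintype {ι : Type*} [Fintype ι] (a : ι → ℂ) (ha : ∀ i, ‖a i‖ < 1) (n : ℕ)
    (hn : n ≤ Fintype.card ι) :
    (toep n (fun z => ∏ i, (1 - a i * z)⁻¹)).det ≤ (∏ j, ∏ i, (1 - conj (a i) * a j))⁻¹ := by
  set e := (Fintype.equivFin ι).symm with he
  have h1 : (fun z => ∏ i, (1 - a i * z)⁻¹) = fa (a ∘ e) := by
    funext z
    unfold fa
    rw [← Equiv.prod_comp e]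
    rfl
  have h2 := det_toep_fa (a ∘ e) (fun i => ha _)
  have h3 : ∏ j, ∏ i, (1 - conj (a i) * a j) =
      ∏ j, ∏ i, (1 - conj ((a ∘ e) i) * (a ∘ e) j) := by
    rw [← Equiv.prod_comp e]
    refine prod_congr rfl fun j _ => ?_
    rw [← Equiv.prod_comp e]
    rfl
  rw [h1, h3]
  have h4 : (toep (Fintype.card ι) (fa (a ∘ e))).det =
      (∏ j, ∏ i, (1 - conj ((a ∘ e) i) * (a ∘ e) j))⁻¹ := eq_inv_of_mul_eq_one_left h2
  rw [← h4]
  exact toep_det_mono' (dcc_of_diff fun z hz => fa_diff (fun i => ha _) hz) (fa_zero _) hn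

/-- product over the roots of unity -/
theorem prod_roots (n : ℕ) (hn : 0 < n) (y : ℂ) :
    ∏ ζ ∈ nthRootsFinset n (1 : ℂ), (1 - ζ * y) = 1 - y ^ n := by
  have h := IsPrimitiveRoot.pow_sub_pow_eq_prod_sub_mul (x := (1:ℂ)) (y := y) hn
    (Complex.isPrimitiveRoot_exp n hn.ne')
  rw [one_pow] at h
  exact h.symm

theorem card_roots (n : ℕ) (hn : 0 < n) : (nthRootsFinset n (1 : ℂ)).card = n :=
  (Complex.isPrimitiveRoot_exp n hn.ne').card_nthRootsFinset

theorem norm_root {n : ℕ} (hn : 0 < n) {ζ : ℂ} (h : ζ ∈ nthRootsFinset n (1 : ℂ)) : ‖ζ‖ = 1 := by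
  rw [mem_nthRootsFinset hn] at h
  exact Complex.norm_eq_one_of_pow_eq_one h hn.ne'

/-- dominated convergence for circle averages -/
theorem tendsto_avg {F : ℕ → ℂ → ℂ} {G : ℂ → ℂ} (C : ℝ) (hF : ∀ᶠ N in atTop, CS (F N))
    (hb : ∀ᶠ N in atTop, ∀ z ∈ sphere (0 : ℂ) 1, ‖F N z‖ ≤ C)
    (hl : ∀ z ∈ sphere (0 : ℂ) 1, Tendsto (fun N => F N z) atTop (𝓝 (G z))) :
    Tendsto (fun N => circleAverage (F N) 0 1) atTop (𝓝 (circleAverage G 0 1)) := by
  simp only [circleAverage_def]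
  apply Tendsto.const_smul
  have hm : ∀ θ : ℝ, circleMap (0 : ℂ) 1 θ ∈ sphere (0 : ℂ) 1 := fun θ => by simp
  apply intervalIntegral.tendsto_integral_filter_of_dominated_convergence (fun _ => C)
  · filter_upwards [hF] with N hN
    have h : Continuous fun θ : ℝ => F N (circleMap 0 1 θ) :=
      hN.comp_continuous (continuous_circleMap 0 1) hm
    exact h.aestronglyMeasurable
  · filter_upwards [hb] with N hN
    exact Eventually.of_forall fun θ _ => hN _ (hm θ)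
  · exact intervalIntegrable_const
  · exact Eventually.of_forall fun θ _ => hl _ (hm θ)

theorem tendsto_ip {F G : ℕ → ℂ → ℂ} {f g : ℂ → ℂ} (C : ℝ) (hF : ∀ᶠ N in atTop, CS (F N))
    (hG : ∀ᶠ N in atTop, CS (G N))
    (hbF : ∀ᶠ N in atTop, ∀ z ∈ sphere (0 : ℂ) 1, ‖F N z‖ ≤ C)
    (hbG : ∀ᶠ N in atTop, ∀ z ∈ sphere (0 : ℂ) 1, ‖G N z‖ ≤ C)
    (hlF : ∀ z ∈ sphere (0 : ℂ) 1, Tendsto (fun N => F N z) atTop (𝓝 (f z)))
    (hlG : ∀ z ∈ sphere (0 : ℂ) 1, Tendsto (fun N => G N z) atTop (𝓝 (g z))) :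
    Tendsto (fun N => ip (F N) (G N)) atTop (𝓝 (ip f g)) := by
  unfold ip
  refine tendsto_avg (C * C) ?_ ?_ ?_
  · filter_upwards [hF, hG] with N h1 h2
    exact ContinuousOn.mul h1 h2.conj
  · filter_upwards [hbF, hbG] with N h1 h2 z hz
    rw [norm_mul, RCLike.norm_conj]
    have h0 : 0 ≤ C := (norm_nonneg _).trans (h1 z hz)
    exact mul_le_mul (h1 z hz) (h2 z hz) (norm_nonneg _) h0
  · intro z hz
    exact (hlF z hz).mul ((Complex.continuous_conj.tendsto _).comp (hlG z hz))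

theorem tendsto_toep_det {F : ℕ → ℂ → ℂ} {f : ℂ → ℂ} (C : ℝ) (hF : ∀ᶠ N in atTop, CS (F N))
    (hbF : ∀ᶠ N in atTop, ∀ z ∈ sphere (0 : ℂ) 1, ‖F N z‖ ≤ C)
    (hlF : ∀ z ∈ sphere (0 : ℂ) 1, Tendsto (fun N => F N z) atTop (𝓝 (f z))) (n : ℕ) :
    Tendsto (fun N => (toep n (F N)).det) atTop (𝓝 (toep n f).det) := by
  have h1 : Tendsto (fun N => toep n (F N)) atTop (𝓝 (toep n f)) := by
    refine tendsto_pi_nhds.mpr fun j => tendsto_pi_nhds.mpr fun k => ?_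
    simp only [toep, gram, of_apply]
    have hz1 : ∀ (k : ℕ) (g : ℂ → ℂ), ∀ z ∈ sphere (0 : ℂ) 1, ‖z ^ k * g z‖ = ‖g z‖ := by
      intro k g z hz
      have : ‖z‖ = 1 := by simpa using hz
      rw [norm_mul, norm_pow, this, one_pow, one_mul]
    refine tendsto_ip C ?_ ?_ ?_ ?_ ?_ ?_
    · filter_upwards [hF] with N h using h.zpow _
    · filter_upwards [hF] with N h using h.zpow _
    · filter_upwards [hbF] with N h z hz
      rw [hz1 _ _ z hz]; exact h z hz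
    · filter_upwards [hbF] with N h z hz
      rw [hz1 _ _ z hz]; exact h z hz
    · intro z hz; exact (hlF z hz).const_mul _
    · intro z hz; exact (hlF z hz).const_mul _
  exact ((Continuous.matrix_det continuous_id).tendsto _).comp h1

/-- `‖(∏ (1 + f))^m - 1‖` is small -/
theorem pow_close {ι : Type*} (t : Finset ι) (f : ι → ℂ) (m : ℕ) :
    ‖(∏ i ∈ t, (1 + f i)) ^ m - 1‖ ≤ Real.exp (m * ∑ i ∈ t, ‖f i‖) - 1 := by
  have h := Finset.norm_prod_one_add_sub_one_le (t ×ˢ range m) (fun p : ι × ℕ => f p.1)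
  rw [prod_product, sum_product] at h
  simp only [prod_const, card_range, sum_const, nsmul_eq_mul] at h
  rw [prod_pow, ← mul_sum] at h
  exact h

section main

variable {K : ℕ} (c : Fin K → ℂ)

/-- a root `w^(j+1) = c_j / N` -/
theorem exists_w (j : Fin K) (N : ℕ) : ∃ w : ℂ, w ^ ((j : ℕ) + 1) = c j / N :=
  IsAlgClosed.exists_pow_nat_eq _ (Nat.succ_pos _)

/-- the chosen root -/
noncomputable def w (j : Fin K) (N : ℕ) : ℂ := (exists_w c j N).choose

theorem w_pow (j : Fin K) (N : ℕ) : (w c j N) ^ ((j : ℕ) + 1) = c j / N :=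
  (exists_w c j N).choose_spec

theorem tendsto_w (j : Fin K) : Tendsto (fun N => ‖w c j N‖) atTop (𝓝 0) := by
  have h1 : Tendsto (fun N => ‖w c j N‖ ^ ((j : ℕ) + 1)) atTop (𝓝 0) := by
    have h2 : (fun N => ‖w c j N‖ ^ ((j : ℕ) + 1)) = fun N : ℕ => ‖c j‖ / N := by
      funext N
      rw [← norm_pow, w_pow, norm_div, RCLike.norm_natCast]
    rw [h2]
    exact tendsto_const_div_atTop_nhds_zero_nat _
  rw [Metric.tendsto_atTop] at h1 ⊢
  intro ε hε
  obtain ⟨N0, hN0⟩ := h1 (ε ^ ((j : ℕ) + 1)) (by positivity)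
  refine ⟨N0, fun N hN => ?_⟩
  have h := hN0 N hN
  rw [dist_zero_right, Real.norm_of_nonneg (by positivity)] at h ⊢
  exact lt_of_pow_lt_pow_left₀ _ hε.le h

theorem w_lt_one : ∀ᶠ N in atTop, ∀ j, ‖w c j N‖ < 1 := by
  rw [Filter.eventually_all]
  intro j
  exact (tendsto_w c j).eventually_lt_const (by norm_num)

/-- index type of the factors -/
abbrev Idx (K N : ℕ) : Type := (j : Fin K) × ({ζ : ℂ // ζ ∈ nthRootsFinset ((j : ℕ) + 1) (1 : ℂ)} × Fin N)

/-- the zeros -/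
noncomputable def az (N : ℕ) (p : Idx K N) : ℂ := (p.2.1 : ℂ) * w c p.1 N

theorem az_lt {N : ℕ} (h : ∀ j, ‖w c j N‖ < 1) (p : Idx K N) : ‖az c N p‖ < 1 := by
  unfold az
  rw [norm_mul, norm_root (Nat.succ_pos _) p.2.1.2, one_mul]
  exact h _

theorem prod_idx {M : Type*} [CommMonoid M] (N : ℕ) (G : (j : Fin K) → ℂ → M) :
    ∏ p : Idx K N, G p.1 (p.2.1 : ℂ) =
      ∏ j : Fin K, (∏ ζ ∈ nthRootsFinset ((j : ℕ) + 1) (1 : ℂ), G j ζ) ^ N := by
  rw [Fintype.prod_sigma]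
  refine prod_congr rfl fun j _ => ?_
  rw [Fintype.prod_prod_type]
  simp only [prod_const, card_univ, Fintype.card_fin]
  rw [← prod_coe_sort (nthRootsFinset ((j : ℕ) + 1) (1 : ℂ)) (fun ζ => G j ζ), prod_pow]

theorem card_idx (N : ℕ) : Fintype.card (Idx K N) = ∑ j : Fin K, ((j : ℕ) + 1) * N := by
  rw [Fintype.card_sigma]
  refine sum_congr rfl fun j _ => ?_
  rw [Fintype.card_prod, Fintype.card_fin, Fintype.card_coe, card_roots _ (Nat.succ_pos _)]

/-- the approximating function -/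
noncomputable def fN (N : ℕ) (z : ℂ) : ℂ := ∏ j, ((1 - (c j / N) * z ^ ((j : ℕ) + 1))⁻¹) ^ N

theorem fN_eq (N : ℕ) : fN c N = fun z => ∏ p : Idx K N, (1 - az c N p * z)⁻¹ := by
  funext z
  unfold fN az
  rw [prod_idx N (fun j ζ => (1 - ζ * w c j N * z)⁻¹)]
  refine prod_congr rfl fun j _ => ?_
  congr 1
  rw [prod_inv_distrib]
  congr 1
  have h := prod_roots ((j : ℕ) + 1) (Nat.succ_pos _) (w c j N * z)
  rw [mul_pow, w_pow] at h
  rw [← h]
  exact prod_congr rfl fun ζ _ => by ring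

/-- `R_{jj'}` -/
noncomputable def RR (N : ℕ) (j j' : Fin K) : ℂ :=
  ∏ ζ ∈ nthRootsFinset ((j : ℕ) + 1) (1 : ℂ), ∏ ζ' ∈ nthRootsFinset ((j' : ℕ) + 1) (1 : ℂ),
    (1 - conj (ζ * w c j N) * (ζ' * w c j' N))

theorem prod_az (N : ℕ) : ∏ p : Idx K N, ∏ q : Idx K N, (1 - conj (az c N q) * az c N p) =
    ∏ j', ∏ j, (RR c N j j') ^ (N ^ 2) := by
  unfold az
  have h1 : ∀ p : Idx K N, ∏ q : Idx K N, (1 - conj ((q.2.1 : ℂ) * w c q.1 N) *
      ((p.2.1 : ℂ) * w c p.1 N)) = ∏ j : Fin K, (∏ ζ ∈ nthRootsFinset ((j : ℕ) + 1) (1 : ℂ),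
        (1 - conj (ζ * w c j N) * ((p.2.1 : ℂ) * w c p.1 N))) ^ N := fun p =>
    prod_idx N (fun j ζ => (1 - conj (ζ * w c j N) * ((p.2.1 : ℂ) * w c p.1 N)))
  simp_rw [h1]
  rw [prod_idx N (fun j' ζ' => ∏ j : Fin K, (∏ ζ ∈ nthRootsFinset ((j : ℕ) + 1) (1 : ℂ),
        (1 - conj (ζ * w c j N) * (ζ' * w c j' N))) ^ N)]
  refine prod_congr rfl fun j' _ => ?_
  rw [Finset.prod_comm, ← prod_pow]
  refine prod_congr rfl fun j _ => ?_
  unfold RR
  rw [prod_pow, Finset.prod_comm, ← pow_mul]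
  congr 1
  ring

theorem RR_symm (N : ℕ) (j j' : Fin K) : conj (RR c N j j') = RR c N j' j := by
  unfold RR
  rw [map_prod, Finset.prod_comm]
  refine prod_congr rfl fun ζ _ => ?_
  rw [map_prod]
  refine prod_congr rfl fun ζ' _ => ?_
  simp only [map_sub, map_one, map_mul, Complex.conj_conj]
  ring

theorem RR_eq (N : ℕ) (j j' : Fin K) : RR c N j j' =
    ∏ ζ ∈ nthRootsFinset ((j : ℕ) + 1) (1 : ℂ),
      (1 + (-(conj (ζ * w c j N) ^ ((j' : ℕ) + 1) * (c j' / N)))) := by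
  unfold RR
  refine prod_congr rfl fun ζ _ => ?_
  have h := prod_roots ((j' : ℕ) + 1) (Nat.succ_pos _) (conj (ζ * w c j N) * w c j' N)
  rw [mul_pow, w_pow] at h
  rw [← sub_eq_add_neg, ← h]
  exact prod_congr rfl fun ζ' _ => by ring

theorem RR_diag (N : ℕ) (j : Fin K) : RR c N j j =
    (1 + (-(‖c j‖ ^ 2 : ℝ) : ℂ) / ((N ^ 2 : ℕ) : ℂ)) ^ ((j : ℕ) + 1) := by
  rw [RR_eq]
  have h : ∀ ζ ∈ nthRootsFinset ((j : ℕ) + 1) (1 : ℂ),
      (1 + (-(conj (ζ * w c j N) ^ ((j : ℕ) + 1) * (c j / N)))) =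
        1 + (-(‖c j‖ ^ 2 : ℝ) : ℂ) / ((N ^ 2 : ℕ) : ℂ) := by
    intro ζ hζ
    rw [mem_nthRootsFinset (Nat.succ_pos _)] at hζ
    rw [← map_pow, mul_pow, hζ, w_pow, one_mul]
    have h1 : conj (c j) * c j = ((‖c j‖ ^ 2 : ℝ) : ℂ) := by
      rw [mul_comm, Complex.mul_conj, Complex.normSq_eq_norm_sq]
    rw [← h1]
    simp only [map_div₀, map_natCast, Nat.cast_pow]
    ring
  rw [prod_congr rfl h, prod_const, card_roots _ (Nat.succ_pos _)]

theorem tendsto_RR_diag (j : Fin K) : Tendsto (fun N => (RR c N j j) ^ (N ^ 2)) atTop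
    (𝓝 (Complex.exp (-(((j : ℕ) + 1 : ℝ) * ‖c j‖ ^ 2 : ℝ)))) := by
  have h1 := (Complex.tendsto_one_add_div_pow_exp (-(‖c j‖ ^ 2 : ℝ) : ℂ)).comp
    (tendsto_pow_atTop (α := ℕ) (n := 2) (by norm_num))
  have h2 := h1.pow ((j : ℕ) + 1)
  refine (h2.congr fun N => ?_).trans_eq ?_
  · simp only [Function.comp_apply]
    rw [RR_diag, ← pow_mul, ← pow_mul, mul_comm]
  · rw [← Complex.exp_nat_mul]
    congr 2
    push_cast
    ring

theorem tendsto_RR_lt {j j' : Fin K} (h : j < j') :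
    Tendsto (fun N => (RR c N j j') ^ (N ^ 2)) atTop (𝓝 1) := by
  rw [tendsto_iff_norm_sub_tendsto_zero]
  have hb : ∀ᶠ N : ℕ in atTop, ‖(RR c N j j') ^ (N ^ 2) - 1‖ ≤
      Real.exp (((j : ℕ) + 1 : ℝ) * ‖c j‖ * ‖c j'‖ * ‖w c j N‖) - 1 := by
    filter_upwards [w_lt_one c, eventually_gt_atTop 0] with N hw hN
    rw [RR_eq]
    refine (pow_close _ _ _).trans ?_
    apply sub_le_sub_right
    apply Real.exp_le_exp.mpr
    have h1 : ∀ ζ ∈ nthRootsFinset ((j : ℕ) + 1) (1 : ℂ),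
        ‖(-(conj (ζ * w c j N) ^ ((j' : ℕ) + 1) * (c j' / N)))‖ ≤
          (‖c j‖ / N) * ‖w c j N‖ * (‖c j'‖ / N) := by
      intro ζ hζ
      rw [norm_neg, norm_mul, norm_pow, RCLike.norm_conj, norm_mul, norm_root (Nat.succ_pos _) hζ,
        one_mul, norm_div, RCLike.norm_natCast]
      apply mul_le_mul_of_nonneg_right _ (by positivity)
      have h2 : ‖w c j N‖ ^ ((j : ℕ) + 1) = ‖c j‖ / N := by
        rw [← norm_pow, w_pow, norm_div, RCLike.norm_natCast]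
      rw [← h2, ← pow_succ]
      apply pow_le_pow_of_le_one (norm_nonneg _) (hw j).le
      have := Fin.lt_def.mp h
      omega
    have h3 : ∑ ζ ∈ nthRootsFinset ((j : ℕ) + 1) (1 : ℂ),
        ‖(-(conj (ζ * w c j N) ^ ((j' : ℕ) + 1) * (c j' / N)))‖ ≤
          ((j : ℕ) + 1 : ℝ) * ((‖c j‖ / N) * ‖w c j N‖ * (‖c j'‖ / N)) := by
      refine (sum_le_sum h1).trans ?_
      rw [sum_const, card_roots _ (Nat.succ_pos _), nsmul_eq_mul]
      push_cast
      exact le_rfl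
    have hN' : (0 : ℝ) < N := by exact_mod_cast hN
    calc ((N ^ 2 : ℕ) : ℝ) * _ ≤ ((N ^ 2 : ℕ) : ℝ) *
        (((j : ℕ) + 1 : ℝ) * ((‖c j‖ / N) * ‖w c j N‖ * (‖c j'‖ / N))) :=
          mul_le_mul_of_nonneg_left h3 (by positivity)
      _ = _ := by
        push_cast
        field_simp
  have hlim : Tendsto (fun N => Real.exp (((j : ℕ) + 1 : ℝ) * ‖c j‖ * ‖c j'‖ * ‖w c j N‖) - 1)
      atTop (𝓝 0) := by
    have h1 : Tendsto (fun N => ((j : ℕ) + 1 : ℝ) * ‖c j‖ * ‖c j'‖ * ‖w c j N‖) atTop (𝓝 0) := by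
      have := (tendsto_w c j).const_mul (((j : ℕ) + 1 : ℝ) * ‖c j‖ * ‖c j'‖)
      rwa [mul_zero] at this
    have h2 := (Real.continuous_exp.tendsto 0).comp h1
    simp only [Real.exp_zero, Function.comp_def] at h2
    have h3 := h2.sub_const 1
    rwa [sub_self] at h3
  exact squeeze_zero' (Eventually.of_forall fun _ => norm_nonneg _) hb hlim

theorem tendsto_RR {j j' : Fin K} : Tendsto (fun N => (RR c N j j') ^ (N ^ 2)) atTop
    (𝓝 (if j = j' then Complex.exp (-(((j : ℕ) + 1 : ℝ) * ‖c j‖ ^ 2 : ℝ)) else 1)) := by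
  rcases lt_trichotomy j j' with h | h | h
  · rw [if_neg h.ne]
    exact tendsto_RR_lt c h
  · subst h
    rw [if_pos rfl]
    exact tendsto_RR_diag c j
  · rw [if_neg h.ne']
    have h1 := (Complex.continuous_conj.tendsto _).comp (tendsto_RR_lt c h)
    rw [map_one] at h1
    refine h1.congr fun N => ?_
    simp only [Function.comp_apply, map_pow, RR_symm]

theorem tendsto_prod_az : Tendsto (fun N => ∏ p : Idx K N, ∏ q : Idx K N,
      (1 - conj (az c N q) * az c N p)) atTop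
    (𝓝 (Complex.exp (-(∑ j : Fin K, ((j : ℕ) + 1 : ℝ) * ‖c j‖ ^ 2 : ℝ)))) := by
  simp_rw [prod_az]
  have h := tendsto_finsetProd (univ : Finset (Fin K)) fun j' _ =>
    tendsto_finsetProd (univ : Finset (Fin K)) fun j _ => tendsto_RR c (j := j) (j' := j')
  refine h.trans_eq ?_
  simp only [prod_ite_eq', mem_univ, if_true]
  rw [← Complex.exp_sum]
  congr 2
  push_cast
  rw [sum_neg_distrib]

/-- the function `exp v` -/
noncomputable def ev (z : ℂ) : ℂ := Complex.exp (∑ j, c j * z ^ ((j : ℕ) + 1))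

theorem tendsto_fN (z : ℂ) : Tendsto (fun N => fN c N z) atTop (𝓝 (ev c z)) := by
  unfold fN ev
  rw [Complex.exp_sum]
  refine tendsto_finsetProd _ fun j _ => ?_
  have h := (Complex.tendsto_one_add_div_pow_exp (-(c j * z ^ ((j : ℕ) + 1)))).inv₀
    (Complex.exp_ne_zero _)
  rw [← Complex.exp_neg, neg_neg] at h
  refine h.congr fun N => ?_
  rw [← inv_pow]
  congr 2
  ring

theorem fN_bound : ∃ C : ℝ, ∀ᶠ N in atTop, ∀ z ∈ sphere (0 : ℂ) 1, ‖fN c N z‖ ≤ C := by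
  refine ⟨∏ j, Real.exp (2 * ‖c j‖), ?_⟩
  have h : ∀ᶠ N : ℕ in atTop, ∀ j, 2 * ‖c j‖ ≤ N := by
    rw [Filter.eventually_all]
    intro j
    exact (tendsto_natCast_atTop_atTop (R := ℝ)).eventually_ge_atTop _
  filter_upwards [h, eventually_gt_atTop 0] with N hN hN0 z hz
  have hz1 : ‖z‖ = 1 := by simpa using hz
  have hN' : (0 : ℝ) < N := by exact_mod_cast hN0
  unfold fN
  rw [norm_prod]
  refine prod_le_prod (fun j _ => norm_nonneg _) fun j _ => ?_
  rw [norm_pow, norm_inv]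
  set y := ‖c j‖ / N with hy
  have hy0 : 0 ≤ y := by positivity
  have hy1 : y ≤ 1 / 2 := by
    rw [hy, div_le_iff₀ hN']
    linarith [hN j]
  have h1 : 1 - y ≤ ‖1 - (c j / N) * z ^ ((j : ℕ) + 1)‖ := by
    have h2 : ‖(c j / N) * z ^ ((j : ℕ) + 1)‖ = y := by
      rw [norm_mul, norm_pow, hz1, one_pow, mul_one, norm_div, RCLike.norm_natCast]
    have h3 := norm_sub_norm_le (1 : ℂ) ((c j / N) * z ^ ((j : ℕ) + 1))
    rw [h2, norm_one] at h3
    exact h3
  have h4 : ‖1 - (c j / N) * z ^ ((j : ℕ) + 1)‖⁻¹ ≤ Real.exp (2 * y) := by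
    have h5 : 0 < 1 - y := by linarith
    calc ‖1 - (c j / N) * z ^ ((j : ℕ) + 1)‖⁻¹ ≤ (1 - y)⁻¹ := by gcongr
      _ ≤ 1 + 2 * y := by
        rw [inv_le_comm₀ h5 (by linarith), inv_le_iff_one_le_mul₀ (by linarith)]
        nlinarith
      _ ≤ Real.exp (2 * y) := by
        have := Real.add_one_le_exp (2 * y)
        linarith
  calc (‖1 - (c j / N) * z ^ ((j : ℕ) + 1)‖⁻¹) ^ N ≤ (Real.exp (2 * y)) ^ N := by gcongr
    _ = Real.exp (2 * ‖c j‖) := by
      rw [← Real.exp_nat_mul]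
      congr 1
      rw [hy]
      field_simp

theorem szego_pos (hK : 0 < K) (n : ℕ) : ((toep n (ev c)).det).re ≤
    Real.exp (∑ j : Fin K, ((j : ℕ) + 1 : ℝ) * ‖c j‖ ^ 2) := by
  obtain ⟨C, hC⟩ := fN_bound c
  have hlt := w_lt_one c
  have hcs : ∀ᶠ N in atTop, CS (fN c N) := by
    filter_upwards [hlt] with N hN
    rw [fN_eq]
    refine cs_of_diffContOnCl (dcc_of_diff fun z hz => ?_)
    exact DifferentiableAt.fun_finsetProd fun p _ => diff_inv (az_lt c hN p) hz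
  have h1 := tendsto_toep_det C hcs hC (fun z _ => tendsto_fN c z) n
  have h2 := (tendsto_prod_az c).inv₀ (Complex.exp_ne_zero _)
  have h3 : ∀ᶠ N in atTop, ((toep n (fN c N)).det).re ≤
      ((∏ p : Idx K N, ∏ q : Idx K N, (1 - conj (az c N q) * az c N p))⁻¹).re := by
    filter_upwards [hlt, eventually_ge_atTop n] with N hN hn
    have h4 := det_le_of_fintype (az c N) (az_lt c hN) n (by
      rw [card_idx]
      have h5 : (((⟨0, hK⟩ : Fin K) : ℕ) + 1) * N ≤ ∑ j : Fin K, ((j : ℕ) + 1) * N :=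
        single_le_sum (f := fun j : Fin K => ((j : ℕ) + 1) * N) (fun _ _ => Nat.zero_le _)
          (mem_univ _)
      simp only [zero_add, one_mul] at h5
      exact hn.trans h5)
    rw [← fN_eq] at h4
    exact (Complex.le_def.mp h4).1
  have h6 := le_of_tendsto_of_tendsto ((Complex.continuous_re.tendsto _).comp h1)
    ((Complex.continuous_re.tendsto _).comp h2) h3
  rw [← Complex.exp_neg, neg_neg, Complex.exp_ofReal_re] at h6
  exact h6

end main

/-- **Sharp Szegő upper bound** for every `n`. -/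
theorem szego {K : ℕ} (c : Fin K → ℂ) (n : ℕ) : ((toep n (ev c)).det).re ≤
    Real.exp (∑ j : Fin K, ((j : ℕ) + 1 : ℝ) * ‖c j‖ ^ 2) := by
  rcases Nat.eq_zero_or_pos K with hK | hK
  · subst hK
    have h := szego_pos (K := 1) (fun _ => 0) one_pos n
    have h1 : ev c = ev (K := 1) (fun _ => 0) := by
      funext z; simp [ev]
    rw [h1]
    simpa using h
  · exact szego_pos c hK n

end Pool.Agent.Szego62
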