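import Pool.Agent.NUGas56.Mix3

/-!
Sharp upper bound for the one component circular gas with a positive definite extra pair
interaction and a real potential, both given by infinite Fourier series.
-/

open MeasureTheory Finset Filter
open scoped Topology

namespace Pool.Agent.Szego62

/-- extra pair interaction -/
noncomputable def Wser (w : ℕ → ℝ) (x : ℝ) : ℝ := ∑' k, w k * Real.cos (((k : ℝ) + 1) * x)

/-- potential -/
noncomputable def Aser (c : ℕ → ℂ) (x : ℝ) : ℝ :=
  ∑' k, 2 * (c k * Complex.exp ((k + 1 : ℂ) * x * Complex.I)).re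

theorem abs_term_c (c : ℕ → ℂ) (k : ℕ) (x : ℝ) :
    |2 * (c k * Complex.exp ((k + 1 : ℂ) * x * Complex.I)).re| ≤ 2 * ‖c k‖ := by
  have h1 := Complex.abs_re_le_norm (c k * Complex.exp ((k + 1 : ℂ) * x * Complex.I))
  have h2 : ‖Complex.exp ((k + 1 : ℂ) * x * Complex.I)‖ = 1 := by
    have : ((k + 1 : ℂ) * x * Complex.I) = (((k + 1 : ℝ) * x : ℝ) : ℂ) * Complex.I := by
      push_cast; ring
    rw [this, Complex.norm_exp_ofReal_mul_I]
  rw [norm_mul, h2, mul_one] at h1
  rw [abs_mul, abs_of_pos (by norm_num : (0 : ℝ) < 2)]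
  linarith

theorem Aser_le {c : ℕ → ℂ} (hc : Summable fun k => ‖c k‖) (K : ℕ) (x : ℝ) :
    Aser c x ≤ F K c x + 2 * ∑' k, ‖c (k + K)‖ := by
  have hs : Summable fun k => 2 * (c k * Complex.exp ((k + 1 : ℂ) * x * Complex.I)).re :=
    Summable.of_norm_bounded (hc.mul_left 2) fun k => by
      rw [Real.norm_eq_abs]; exact abs_term_c c k x
  rw [Aser, ← hs.sum_add_tsum_nat_add K, F, ← tsum_mul_left]
  refine add_le_add le_rfl ?_
  refine Summable.tsum_le_tsum (fun k => ?_) ((summable_nat_add_iff K).2 hs)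
    (((summable_nat_add_iff K).2 hc).mul_left 2)
  exact (le_abs_self _).trans (abs_term_c c (k + K) x)

theorem Wser_le {w : ℕ → ℝ} (hw : ∀ k, 0 ≤ w k) (hws : Summable w) (K : ℕ) (x : ℝ) :
    Wser w x ≤ ∑ k ∈ range K, w k * Real.cos (((k : ℝ) + 1) * x) + ∑' k, w (k + K) := by
  have hb : ∀ k, |w k * Real.cos (((k : ℝ) + 1) * x)| ≤ w k := by
    intro k
    rw [abs_mul, abs_of_nonneg (hw k)]
    exact mul_le_of_le_one_right (hw k) (Real.abs_cos_le_one _)
  have hs : Summable fun k => w k * Real.cos (((k : ℝ) + 1) * x) :=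
    Summable.of_norm_bounded hws fun k => by rw [Real.norm_eq_abs]; exact hb k
  rw [Wser, ← hs.sum_add_tsum_nat_add K]
  refine add_le_add le_rfl ?_
  refine Summable.tsum_le_tsum (fun k => ?_) ((summable_nat_add_iff K).2 hs)
    ((summable_nat_add_iff K).2 hws)
  exact (le_abs_self _).trans (hb (k + K))

/-- **Sharp upper bound**, infinitely many modes. -/
theorem RU (n : ℕ) (w : ℕ → ℝ) (hw : ∀ k, 0 ≤ w k) (hw2 : ∀ k : ℕ, ((k : ℝ) + 1) * w k < 2)
    (hws : Summable w) (c : ℕ → ℂ) (hc : Summable fun k => ‖c k‖) (a0 E : ℝ)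
    (hE : ∀ K, ∏ k ∈ range K, ((1 - ((k : ℝ) + 1) * w k / 2)⁻¹ *
      Real.exp (((k : ℝ) + 1) * ‖c k‖ ^ 2 / (1 - ((k : ℝ) + 1) * w k / 2))) ≤ Real.exp E) :
    ∫ θ : Fin n → ℝ, V n θ * Real.exp (∑ i, ∑ j ∈ Ioi i, Wser w (θ i - θ j)) *
      Real.exp (∑ i, (a0 + Aser c (θ i))) ∂(Measure.pi fun _ => mu) ≤
    (n.factorial : ℝ) * Real.exp (n * a0 - (n : ℝ) / 2 * ∑' k, w k + E) := by
  obtain ⟨δ, hδ⟩ : ∃ δ : ℕ → ℝ, δ = fun K => (n : ℝ) * n * ∑' k, w (k + K) +
    n * (2 * ∑' k, ‖c (k + K)‖) := ⟨_, rfl⟩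
  have hδ0 : Tendsto δ atTop (𝓝 0) := by
    have h1 := tendsto_sum_nat_add w
    have h2 := tendsto_sum_nat_add fun k => ‖c k‖
    have := (h1.const_mul ((n : ℝ) * n)).add ((h2.const_mul 2).const_mul (n : ℝ))
    simpa [hδ] using this
  have hcont : ∀ K, Continuous fun θ : Fin n → ℝ => V n θ *
      Real.exp (∑ i, ∑ j ∈ Ioi i, ∑ k ∈ range K, w k * Real.cos (((k : ℝ) + 1) * (θ i - θ j))) *
      Real.exp (∑ i, F K c (θ i)) := by
    intro K
    unfold V F
    fun_prop
  have hint : ∀ K, Integrable (fun θ : Fin n → ℝ => V n θ *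
      Real.exp (∑ i, ∑ j ∈ Ioi i, ∑ k ∈ range K, w k * Real.cos (((k : ℝ) + 1) * (θ i - θ j))) *
      Real.exp (∑ i, F K c (θ i))) (Measure.pi fun _ => mu) := by
    intro K
    refine Integrable.of_bound (hcont K).aestronglyMeasurable
      ((∏ i : Fin n, ∏ j ∈ Ioi i, (4 : ℝ)) *
        Real.exp (∑ i : Fin n, ∑ j ∈ Ioi i, ∑ k ∈ range K, w k) *
        Real.exp (∑ i : Fin n, ∑ k ∈ range K, 2 * ‖c k‖)) (ae_of_all _ fun θ => ?_)
    rw [Real.norm_eq_abs, abs_of_nonneg (by have := Mix56.V_nonneg n θ; positivity)]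
    gcongr
    · exact Mix56.V_le n θ
    · exact mul_le_of_le_one_right (hw _) (Real.cos_le_one _)
    · unfold F
      exact sum_le_sum fun k _ => (le_abs_self _).trans (abs_term_c c k _)
  have hmain : ∀ K, ∫ θ : Fin n → ℝ, V n θ *
      Real.exp (∑ i, ∑ j ∈ Ioi i, Wser w (θ i - θ j)) *
      Real.exp (∑ i, (a0 + Aser c (θ i))) ∂(Measure.pi fun _ => mu) ≤
      (n.factorial : ℝ) * Real.exp (δ K + (n * a0 - (n : ℝ) / 2 * ∑ k ∈ range K, w k + E)) := by
    intro K
    have h1 := Mix56.circle1 n K w (fun k _ => hw k) (fun k _ => hw2 k) c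
    have h2 : ∫ θ : Fin n → ℝ, V n θ *
      Real.exp (∑ i, ∑ j ∈ Ioi i, Wser w (θ i - θ j)) *
      Real.exp (∑ i, (a0 + Aser c (θ i))) ∂(Measure.pi fun _ => mu) ≤
      ∫ θ : Fin n → ℝ, Real.exp (δ K + n * a0) * (V n θ *
      Real.exp (∑ i, ∑ j ∈ Ioi i, ∑ k ∈ range K, w k * Real.cos (((k : ℝ) + 1) * (θ i - θ j))) *
      Real.exp (∑ i, F K c (θ i))) ∂(Measure.pi fun _ => mu) := by
      refine integral_mono_of_nonneg (ae_of_all _ fun θ => ?_) ((hint K).const_mul _)
        (ae_of_all _ fun θ => ?_)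
      · have := Mix56.V_nonneg n θ
        simp only [Pi.zero_apply]
        positivity
      · simp only
        have hV := Mix56.V_nonneg n θ
        have e1 : ∑ i, ∑ j ∈ Ioi i, Wser w (θ i - θ j) ≤ ∑ i, ∑ j ∈ Ioi i, ∑ k ∈ range K,
            w k * Real.cos (((k : ℝ) + 1) * (θ i - θ j)) + (n : ℝ) * n * ∑' k, w (k + K) := by
          have ht : 0 ≤ ∑' k, w (k + K) := tsum_nonneg fun k => hw _
          calc ∑ i, ∑ j ∈ Ioi i, Wser w (θ i - θ j) ≤ ∑ i, ∑ j ∈ Ioi i, (∑ k ∈ range K,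
            w k * Real.cos (((k : ℝ) + 1) * (θ i - θ j)) + ∑' k, w (k + K)) :=
                sum_le_sum fun i _ => sum_le_sum fun j _ => Wser_le hw hws K _
            _ = ∑ i, ∑ j ∈ Ioi i, ∑ k ∈ range K,
            w k * Real.cos (((k : ℝ) + 1) * (θ i - θ j)) +
              ∑ i : Fin n, ∑ j ∈ Ioi i, ∑' k, w (k + K) := by
                simp only [sum_add_distrib]
            _ ≤ _ := by
                gcongr
                calc ∑ i : Fin n, ∑ j ∈ Ioi i, ∑' k, w (k + K) ≤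
                    ∑ i : Fin n, ∑ j : Fin n, ∑' k, w (k + K) :=
                      sum_le_sum fun i _ => sum_le_sum_of_subset_of_nonneg (subset_univ _)
                        fun _ _ _ => ht
                  _ = _ := by simp [mul_assoc]
        have e2 : ∑ i, (a0 + Aser c (θ i)) ≤
            ∑ i, F K c (θ i) + (n * a0 + n * (2 * ∑' k, ‖c (k + K)‖)) := by
          calc ∑ i, (a0 + Aser c (θ i)) ≤
              ∑ i, (F K c (θ i) + (a0 + 2 * ∑' k, ‖c (k + K)‖)) :=
                sum_le_sum fun i _ => by linarith [Aser_le hc K (θ i)]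
            _ = _ := by
              rw [sum_add_distrib]
              simp
        calc V n θ * Real.exp (∑ i, ∑ j ∈ Ioi i, Wser w (θ i - θ j)) *
              Real.exp (∑ i, (a0 + Aser c (θ i))) ≤
            V n θ * Real.exp (∑ i, ∑ j ∈ Ioi i, ∑ k ∈ range K,
            w k * Real.cos (((k : ℝ) + 1) * (θ i - θ j)) + (n : ℝ) * n * ∑' k, w (k + K)) *
              Real.exp (∑ i, F K c (θ i) + (n * a0 + n * (2 * ∑' k, ‖c (k + K)‖))) := by
              gcongr
          _ = _ := by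
              rw [hδ]
              simp only [Real.exp_add]
              ring
    refine h2.trans ?_
    rw [integral_const_mul]
    have h3 : ∏ k ∈ range K, ((1 - ((k : ℝ) + 1) * w k / 2)⁻¹ *
      Real.exp (((k : ℝ) + 1) * ‖c k‖ ^ 2 / (1 - ((k : ℝ) + 1) * w k / 2))) ≤ Real.exp E := hE K
    simp only [← Mix56.F_szego] at h1
    calc Real.exp (δ K + n * a0) * ∫ θ : Fin n → ℝ, V n θ *
      Real.exp (∑ i, ∑ j ∈ Ioi i, ∑ k ∈ range K, w k * Real.cos (((k : ℝ) + 1) * (θ i - θ j))) *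
      Real.exp (∑ i, F K c (θ i)) ∂(Measure.pi fun _ => mu) ≤
        Real.exp (δ K + n * a0) * ((n.factorial : ℝ) *
          Real.exp (-((n : ℝ) / 2 * ∑ k ∈ range K, w k)) * Real.exp E) := by
          gcongr
          exact h1.trans (by gcongr)
      _ = _ := by
        rw [show δ K + (n * a0 - (n : ℝ) / 2 * ∑ k ∈ range K, w k + E) =
          (δ K + n * a0) + (-((n : ℝ) / 2 * ∑ k ∈ range K, w k)) + E by ring,
          Real.exp_add (δ K + n * a0 + _) E, Real.exp_add (δ K + n * a0)]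
        ring
  have hlim : Tendsto (fun K => (n.factorial : ℝ) *
      Real.exp (δ K + (n * a0 - (n : ℝ) / 2 * ∑ k ∈ range K, w k + E))) atTop
      (𝓝 ((n.factorial : ℝ) * Real.exp (0 + (n * a0 - (n : ℝ) / 2 * ∑' k, w k + E)))) := by
    apply Tendsto.const_mul
    apply (Real.continuous_exp.tendsto _).comp
    apply hδ0.add
    apply Tendsto.add_const
    apply Tendsto.const_sub
    apply Tendsto.const_mul
    exact hws.hasSum.tendsto_sum_nat
  rw [zero_add] at hlim
  exact ge_of_tendsto' hlim hmain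

end Pool.Agent.Szego62
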